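import Pool.Agent.Q286.MC.Mom

/-!
Project MC: moments of the returns and the Riemann hypothesis.
-/

set_option autoImplicit false

namespace Pool.Agent.Q286.MC

open Finset Filter Topology MeasureTheory Complex
open Pool.Agent.TH806 Pool.Agent.TH806.LK
open Pool.Agent.Q286.UZ Pool.Agent.Q286.SB ZU TH803TW
open Pool.Agent.Y834.UT (hull Tgt exists_hull_rect)

noncomputable section

/-- the moment of order `β` over `A ∩ [0, T]` -/
def Mb (β : ℝ) (A : Set ℝ) (T : ℝ) : ℝ := ∫ t in A ∩ Set.Icc 0 T, ‖riemannZeta (1 / 2 + t * Complex.I)‖ ^ β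

lemma zb_cont {β : ℝ} (hβ : 0 ≤ β) : Continuous fun t : ℝ => ‖riemannZeta (1 / 2 + t * Complex.I)‖ ^ β :=
  Xz_pow_cont hβ

/-- the lower bound on `[0, T]` for targets -/
theorem low0 (hM : P_MO) {K : Set ℂ} (hK : IsCompact K) (hKs : ∀ z ∈ K, 1 / 2 < z.re ∧ z.re < 1)
    {f : ℂ → ℂ} (hf : Tgt K f) {ε : ℝ} (hε : 0 < ε) {β : ℝ} (hβ : 0 ≤ β) :
    ∃ κ : ℝ, 0 < κ ∧ ∃ T₀ : ℝ, ∀ T ≥ T₀, κ * (T * Real.log T ^ (β ^ 2 / 4)) ≤
      Mb β (Pool.Agent.Y834.UT.SS ε K f) T := by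
  obtain ⟨c, hc, h⟩ := hM K f ε hK hKs hf hε β hβ
  have h1 := h 0 le_rfl one_pos
  have hhalf : Tendsto (fun T : ℝ => T / 2) atTop atTop := tendsto_id.atTop_div_const two_pos
  obtain ⟨T₀, hT₀⟩ := eventually_atTop.1 ((hhalf.eventually h1).and
    (eventually_ge_atTop (4:ℝ)))
  refine ⟨c / 2 * (1 / 2) ^ (β ^ 2 / 4), by positivity, T₀, fun T hT => ?_⟩
  obtain ⟨h2, h3⟩ := hT₀ T hT
  have hT0 : 0 < T := by linarith
  have h4 := h2 (T / 2) (by simp) le_rfl (β / 2) (by rw [abs_of_nonneg (by positivity)]; linarith)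
  have mS : MeasurableSet (Pool.Agent.Y834.UT.SS ε K f) :=
    (SS_open hK (fun z hz => (hKs z hz).2) f ε).measurableSet
  have e0 : T / 2 + T / 2 = T := by ring
  rw [e0] at h4
  have hL1 : 1 ≤ Real.log T := by
    rw [Real.le_log_iff_exp_le hT0]
    have := Real.exp_one_lt_d9
    linarith
  have hLh : Real.log T / 2 ≤ Real.log (T / 2) := by
    rw [Real.log_div hT0.ne' two_ne_zero]
    have h5 : Real.log 4 ≤ Real.log T := Real.log_le_log (by norm_num) h3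
    have e : Real.log 4 = 2 * Real.log 2 := by
      rw [show (4:ℝ) = 2 ^ 2 by norm_num, Real.log_pow]; norm_num
    linarith
  have hLh0 : 0 < Real.log (T / 2) := by linarith
  have e1 : Real.exp ((β / 2) ^ 2 * Real.log (Real.log (T / 2))) = Real.log (T / 2) ^ (β ^ 2 / 4) := by
    rw [Real.rpow_def_of_pos hLh0]; congr 1; ring
  rw [e1] at h4
  have hsub : Pool.Agent.Y834.UT.SS ε K f ∩ Set.Icc (T / 2) T ⊆ Pool.Agent.Y834.UT.SS ε K f ∩ Set.Icc 0 T :=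
    Set.inter_subset_inter_right _ (Set.Icc_subset_Icc_left (by linarith))
  have hI : IntegrableOn (fun t : ℝ => ‖riemannZeta (1 / 2 + t * Complex.I)‖ ^ β)
      (Pool.Agent.Y834.UT.SS ε K f ∩ Set.Icc 0 T) :=
    ((zb_cont hβ).continuousOn.integrableOn_compact isCompact_Icc).mono_set Set.inter_subset_right
  have h5 : (∫⁻ t in Pool.Agent.Y834.UT.SS ε K f ∩ Set.Icc (T / 2) T, ENNReal.ofReal (Xz t ^ (2 * (β / 2)))) ≤
      ENNReal.ofReal (Mb β (Pool.Agent.Y834.UT.SS ε K f) T) := by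
    unfold Mb
    rw [ofReal_integral_eq_lintegral_ofReal hI (Eventually.of_forall fun t => by positivity)]
    have e2 : (2 * (β / 2)) = β := by ring
    rw [e2]
    exact lintegral_mono_set hsub
  have h6 := h4.trans h5
  have hMb0 : 0 ≤ Mb β (Pool.Agent.Y834.UT.SS ε K f) T := by
    unfold Mb
    exact setIntegral_nonneg (mS.inter measurableSet_Icc) fun t _ => by positivity
  have h7 := (ENNReal.ofReal_le_ofReal_iff hMb0).1 h6
  refine le_trans ?_ h7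
  have h8 : (1 / 2) ^ (β ^ 2 / 4) * Real.log T ^ (β ^ 2 / 4) ≤ Real.log (T / 2) ^ (β ^ 2 / 4) := by
    rw [← Real.mul_rpow (by norm_num) (by linarith)]
    refine Real.rpow_le_rpow (by positivity) (by linarith) (by positivity)
  calc c / 2 * (1 / 2) ^ (β ^ 2 / 4) * (T * Real.log T ^ (β ^ 2 / 4)) =
        c * (T / 2) * ((1 / 2) ^ (β ^ 2 / 4) * Real.log T ^ (β ^ 2 / 4)) := by ring
    _ ≤ c * (T / 2) * Real.log (T / 2) ^ (β ^ 2 / 4) := by gcongr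

/-- the rare returns -/
theorem up0 (hR : P_RAREM) {K : Set ℂ} (hK : IsCompact K) (hKs : ∀ z ∈ K, 1 / 2 < z.re ∧ z.re < 1)
    {z₀ : ℂ} (hz₀ : z₀ ∈ interior (hull K)) (hζ : riemannZeta z₀ = 0) {β : ℝ} (hβ : 0 ≤ β) (hβ4 : β < 4) :
    ∃ ε δ : ℝ, 0 < ε ∧ 0 < δ ∧ ∃ T₀ : ℝ, ∀ T ≥ T₀, Mb β (Pool.Agent.Y834.UT.SS ε K riemannZeta) T ≤ T ^ (1 - δ) := by
  obtain ⟨ε, δ, hε, hδ, h⟩ := hR K hK hKs z₀ hz₀ hζ β hβ hβ4
  obtain ⟨T₀, h⟩ := eventually_atTop.1 h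
  exact ⟨ε, δ, hε, hδ, T₀, h⟩

/-- the local criterion -/
theorem loc (hM : P_MO) (hR : P_RAREM) {K : Set ℂ} (hK : IsCompact K) (hKs : ∀ z ∈ K, 1 / 2 < z.re ∧ z.re < 1)
    {β : ℝ} (hβ : 0 ≤ β) (hβ4 : β < 4) :
    (∀ z ∈ interior (hull K), riemannZeta z ≠ 0) ↔
      ∀ ε : ℝ, 0 < ε → ∃ κ : ℝ, 0 < κ ∧ ∃ T₀ : ℝ, ∀ T ≥ T₀,
        κ * (T * Real.log T ^ (β ^ 2 / 4)) ≤ Mb β (Pool.Agent.Y834.UT.SS ε K riemannZeta) T := by
  constructor
  · intro h ε hε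
    exact low0 hM hK hKs (tgt_zeta hK hKs h) hε hβ
  · intro h z hz h0
    obtain ⟨ε, δ, hε, hδ, T1, h1⟩ := up0 hR hK hKs hz h0 hβ hβ4
    obtain ⟨κ, hκ, T2, h2⟩ := h ε hε
    have h3 := pow_absorb (2 / κ) (show 1 - δ < 1 by linarith)
    obtain ⟨T, ⟨⟨k1, k2⟩, k3⟩, k4⟩ := (((h3.and (eventually_ge_atTop T1)).and (eventually_ge_atTop T2)).and
      (eventually_gt_atTop (Real.exp 1))).exists
    have hT0 : 0 < T := lt_trans (Real.exp_pos 1) k4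
    have hlog : 1 < Real.log T := by
      rw [Real.lt_log_iff_exp_lt hT0]; exact k4
    have h4 := (h2 T k3).trans (h1 T k2)
    have h5 : 1 ≤ Real.log T ^ (β ^ 2 / 4) := Real.one_le_rpow hlog.le (by positivity)
    rw [Real.rpow_one, div_mul_eq_mul_div, div_le_iff₀ hκ] at k1
    have h6 : T * 1 ≤ T * Real.log T ^ (β ^ 2 / 4) := mul_le_mul_of_nonneg_left h5 hT0.le
    have h7 : κ * (T * 1) ≤ κ * (T * Real.log T ^ (β ^ 2 / 4)) := mul_le_mul_of_nonneg_left h6 hκ.le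
    have h8 : 0 < κ * T := by positivity
    nlinarith

/-- the Riemann hypothesis -/
theorem rh_b (hM : P_MO) (hR : P_RAREM) {β : ℝ} (hβ : 0 ≤ β) (hβ4 : β < 4) : [RiemannHypothesis,
    ∀ K : Set ℂ, IsCompact K → (∀ z ∈ K, 1 / 2 < z.re ∧ z.re < 1) → ∀ ε : ℝ, 0 < ε →
      ∃ κ : ℝ, 0 < κ ∧ ∃ T₀ : ℝ, ∀ T ≥ T₀,
        κ * (T * Real.log T ^ (β ^ 2 / 4)) ≤ Mb β (Pool.Agent.Y834.UT.SS ε K riemannZeta) T,
    ∀ (z₀ : ℂ) (r : ℝ), 0 < r → (∀ z ∈ Metric.closedBall z₀ r, 1 / 2 < z.re ∧ z.re < 1) →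
      ∀ ε : ℝ, 0 < ε → ∀ δ : ℝ, 0 < δ → ∀ T₀ : ℝ, ∃ T ≥ T₀, T ^ (1 - δ) <
        Mb β (Pool.Agent.Y834.UT.SS ε (Metric.closedBall z₀ r) riemannZeta) T].TFAE := by
  tfae_have 1 → 2 := by
    intro h K hK hKs ε hε
    refine low0 hM hK hKs (tgt_zeta hK hKs fun z hz => ?_) hε hβ
    obtain ⟨a, b, B, h1, h2, h3, h4, hR⟩ := exists_hull_rect hK hKs
    exact rh_iff.1 h z (h1.trans_le (hR (interior_subset hz)).1)
  tfae_have 2 → 3 := by
    intro h z0 r hr hs ε hε δ hδ T0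
    obtain ⟨κ, hκ, T2, h2⟩ := h _ (isCompact_closedBall z0 r) hs ε hε
    have h3 := pow_absorb (2 / κ) (show 1 - δ < 1 by linarith)
    obtain ⟨T, ⟨⟨k1, k2⟩, k3⟩, k4⟩ := (((h3.and (eventually_ge_atTop T0)).and (eventually_ge_atTop T2)).and
      (eventually_gt_atTop (Real.exp 1))).exists
    have hT0 : 0 < T := lt_trans (Real.exp_pos 1) k4
    have hlog : 1 < Real.log T := by
      rw [Real.lt_log_iff_exp_lt hT0]; exact k4
    refine ⟨T, k2, lt_of_lt_of_le ?_ (h2 T k3)⟩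
    have h5 : 1 ≤ Real.log T ^ (β ^ 2 / 4) := Real.one_le_rpow hlog.le (by positivity)
    rw [Real.rpow_one, div_mul_eq_mul_div, div_le_iff₀ hκ] at k1
    have h6 : T * 1 ≤ T * Real.log T ^ (β ^ 2 / 4) := mul_le_mul_of_nonneg_left h5 hT0.le
    have h7 : κ * (T * 1) ≤ κ * (T * Real.log T ^ (β ^ 2 / 4)) := mul_le_mul_of_nonneg_left h6 hκ.le
    have h8 : 0 < κ * T := by positivity
    nlinarith
  tfae_have 3 → 1 := by
    intro h
    rw [rh_iff]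
    intro s hs h0
    have hs1 : s.re < 1 := by
      by_contra hcon
      exact riemannZeta_ne_zero_of_one_le_re (not_lt.1 hcon) h0
    obtain ⟨r, hr, hr1, hr2⟩ : ∃ r : ℝ, 0 < r ∧ r < s.re - 1 / 2 ∧ r < 1 - s.re := by
      have h5 : 0 < min (s.re - 1 / 2) (1 - s.re) := lt_min (by linarith) (by linarith)
      refine ⟨min (s.re - 1 / 2) (1 - s.re) / 2, by linarith, ?_, ?_⟩
      · have := min_le_left (s.re - 1 / 2) (1 - s.re)
        linarith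
      · have := min_le_right (s.re - 1 / 2) (1 - s.re)
        linarith
    have hKs : ∀ z ∈ Metric.closedBall s r, 1 / 2 < z.re ∧ z.re < 1 := by
      intro z hz
      rw [Metric.mem_closedBall, dist_eq_norm] at hz
      have := abs_le.1 ((Complex.abs_re_le_norm (z - s)).trans hz)
      rw [Complex.sub_re] at this
      constructor <;> linarith [this.1, this.2]
    obtain ⟨ε, δ, hε, hδ, T1, hT1⟩ := up0 hR (isCompact_closedBall s r) hKs (disc_int hr) h0 hβ hβ4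
    obtain ⟨T, hT, h6⟩ := h s r hr hKs ε hε δ hδ T1
    have h7 := hT1 T hT
    linarith
  tfae_finish

end

end Pool.Agent.Q286.MC
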