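import Pool.Agent.Q286.MC.AllT
import Pool.Agent.Q286.MC.Rh
import Pool.Agent.Q14.MC.TM
import Pool.Agent.Q14.MC.BadW

set_option autoImplicit false

namespace Pool.Agent.Q286.MC

theorem a_CW0 : P_CW := a_CW Pool.Agent.Q14.MC.TM.tm Pool.Agent.Q14.MC.BadW.badw

theorem a_MO : P_MO := t_MO a_CW0

theorem a_LD : P_LD := t_LD a_CW0

end Pool.Agent.Q286.MC
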