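import Pool.Agent.Q286.MC.Defs

/-!
Project MC: mean squares of Dirichlet polynomials under the tilt `|AZ|²`.
-/

set_option autoImplicit false

namespace Pool.Agent.Q286.MC

open Finset Filter Topology MeasureTheory Complex MonoidAlgebra
open Pool.Agent.W184.NZ
open Pool.Agent.TH806 Pool.Agent.TH806.LK
open Pool.Agent.H306R2.SM (om cl Yf)
open Pool.Agent.H262R4.TM (Rng Ck)
open Pool.Agent.Q286.UZ Pool.Agent.Q286.SB ZU TH803TW

noncomputable section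

/-- the pairs with product `q` -/
def prs (D N q : ℕ) : Finset (ℕ × ℕ) := (Icc 1 D ×ˢ Icc 1 N).filter (fun x => x.1 * x.2 = q)

lemma sum_prs {M : Type} [AddCommMonoid M] (D N : ℕ) (F : ℕ × ℕ → M) :
    ∑ q ∈ Icc 1 (D * N), ∑ x ∈ prs D N q, F x = ∑ d ∈ Icc 1 D, ∑ m ∈ Icc 1 N, F (d, m) := by
  rw [← sum_product', ← sum_fiberwise_of_maps_to (t := Icc 1 (D * N)) (g := fun x : ℕ × ℕ => x.1 * x.2)]
  · rfl
  · intro x hx
    rw [mem_product, mem_Icc, mem_Icc] at hx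
    rw [mem_Icc]
    exact ⟨Nat.mul_pos hx.1.1 hx.2.1, Nat.mul_le_mul hx.1.2 hx.2.2⟩

/-- multiplication of two Dirichlet polynomials -/
lemma dir_mul (D N : ℕ) (cf : ℕ → ℝ) (a : ℕ → ℂ) (s : ℂ) (t : ℝ) :
    (∑ d ∈ Icc 1 D, (cf d : ℂ) * (d : ℂ) ^ (-(1 / 2 + t * Complex.I))) *
      ∑ m ∈ Icc 1 N, a m * (m : ℂ) ^ (-(s + t * Complex.I)) =
    ∑ q ∈ Icc 1 (D * N), (∑ x ∈ prs D N q, (cf x.1 : ℂ) * (a x.2 * (x.2 : ℂ) ^ (-(s - 1 / 2)))) *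
      (q : ℂ) ^ (-(1 / 2 + t * Complex.I)) := by
  rw [sum_mul_sum, ← sum_prs D N (fun x => ((cf x.1 : ℂ) * (x.1 : ℂ) ^ (-(1 / 2 + t * Complex.I))) *
    (a x.2 * (x.2 : ℂ) ^ (-(s + t * Complex.I))))]
  refine sum_congr rfl fun q hq => ?_
  rw [sum_mul]
  refine sum_congr rfl fun x hx => ?_
  obtain ⟨hx1, hx2⟩ := mem_filter.mp hx
  rw [mem_product, mem_Icc, mem_Icc] at hx1
  have hm : (x.2 : ℂ) ≠ 0 := by
    have : x.2 ≠ 0 := by omega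
    exact_mod_cast this
  have e1 : (x.2 : ℂ) ^ (-(s + t * Complex.I)) =
      (x.2 : ℂ) ^ (-(s - 1 / 2)) * (x.2 : ℂ) ^ (-(1 / 2 + t * Complex.I)) := by
    rw [← Complex.cpow_add _ _ hm]; congr 1; ring
  have e2 : (q : ℂ) ^ (-(1 / 2 + t * Complex.I)) =
      (x.1 : ℂ) ^ (-(1 / 2 + t * Complex.I)) * (x.2 : ℂ) ^ (-(1 / 2 + t * Complex.I)) := by
    rw [← Complex.natCast_mul_natCast_cpow, ← hx2]; push_cast; rfl
  rw [e1, e2]; ring

lemma VV_PJ {c : ℝ} {J : ℕ} {I : ℕ → Finset ℕ} {b : ℕ → ℝ} (h : Rg c J I b) :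
    ∑ p ∈ PJ J I, 1 / (p:ℝ) = VV I J := by
  unfold PJ VV
  rw [sum_biUnion]
  · rfl
  · intro i _ j _ hij
    rcases lt_or_gt_of_ne hij with h' | h'
    · exact h.dj i j h'
    · exact (h.dj j i h').symm

theorem t_DIRAZ (hCOEF : P_COEF) (hSUMA : P_SUMA) (hMVD : P_MVD) (hGS : P_GS) : P_DIRAZ := by
  intro n σ1 hn hσ1
  set τ : ℝ := σ1 - 1 / 2 with hτ
  have hτ0 : 0 < τ := by linarith
  set ε : ℝ := min (τ / 2) (1 / 4) with hε
  have hε0 : 0 < ε := by positivity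
  have hετ : ε ≤ τ / 2 := min_le_left _ _
  have hε1 : ε ≤ 1 / 4 := min_le_right _ _
  obtain ⟨CG, hCG, hGS⟩ := hGS τ ε hτ0 hε0.le hετ
  obtain ⟨C₀, hC₀, hCOEF⟩ := hCOEF n hn
  have hn1 : (1:ℝ) ≤ n := by exact_mod_cast hn
  set P₀ : ℕ := ⌈(n:ℝ) ^ (1 / ε)⌉₊ with hP₀
  have hP₀n : (n:ℝ) ≤ (P₀:ℝ) ^ ε := by
    have h1 : (n:ℝ) ^ (1 / ε) ≤ P₀ := Nat.le_ceil _
    calc (n:ℝ) = ((n:ℝ) ^ (1 / ε)) ^ ε := by
          rw [← Real.rpow_mul (by linarith), one_div, inv_mul_cancel₀ hε0.ne', Real.rpow_one]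
      _ ≤ (P₀:ℝ) ^ ε := Real.rpow_le_rpow (by positivity) h1 hε0.le
  refine ⟨P₀, CG, τ / 2, 1 / (100 * C₀), hCG, by positivity, by positivity, fun Rs hRs => ?_⟩
  filter_upwards [hMVD, eventually_gt_atTop (1:ℝ)] with T hMVD hT1 κ hκ c y J I hcfg hlen k hk N hN M0 hM0 a ha ha0 s hs
  have hT0 : 0 < T := by linarith
  obtain ⟨D, cf, hD1, hD, hcf, hAZ⟩ := hCOEF Rs c 1 y P₀ J I k hRs hcfg hk
  have hDT : (D:ℝ) ≤ T ^ (1 / 100 : ℝ) := by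
    refine hD.trans ?_
    rw [Real.rpow_def_of_pos hT0]
    apply Real.exp_le_exp.mpr
    have h1 := mul_le_mul_of_nonneg_left hlen hC₀.le
    have e1 : C₀ * (1 / (100 * C₀) * Real.log T) = Real.log T * (1 / 100) := by field_simp
    linarith
  have hI : ∀ p ∈ PJ J I, p.Prime := by
    intro p hp
    obtain ⟨i, _, hp⟩ := mem_biUnion.mp hp
    exact (hcfg.rg.pr i p hp).1
  obtain ⟨s1, s2, s3, s4⟩ := hSUMA (PJ J I) |k| hI (abs_nonneg k)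
  have s4' := s4 ε hε0.le (by
    intro p hp
    obtain ⟨i, _, hp⟩ := mem_biUnion.mp hp
    have h1 : P₀ ≤ p := hcfg.P i p hp
    have h2 : (P₀:ℝ) ≤ p := by exact_mod_cast h1
    exact hk.trans (hP₀n.trans (Real.rpow_le_rpow (Nat.cast_nonneg _) h2 hε0.le)))
  rw [VV_PJ hcfg.rg, sq_abs] at s3
  set b : ℕ → ℝ := fun m => if m ≤ M0 then 0 else (m:ℝ) ^ (-τ) with hb
  have hb0 : ∀ m, 0 ≤ b m := fun m => by
    rw [hb]; simp only; split_ifs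
    · exact le_rfl
    · positivity
  have hb1 : ∀ m : ℕ, 1 ≤ m → b m ≤ (m:ℝ) ^ (-τ) := fun m _ => by
    rw [hb]; simp only; split_ifs
    · positivity
    · exact le_rfl
  have hbM : ∀ m ≤ M0, b m = 0 := fun m hm => by rw [hb]; simp only; rw [if_pos hm]
  have hab : ∀ m : ℕ, 1 ≤ m → ‖a m * (m : ℂ) ^ (-(s - 1 / 2))‖ ≤ b m := by
    intro m hm
    rw [hb]; simp only
    split_ifs with h
    · rw [ha0 m h, zero_mul, norm_zero]
    · rw [norm_mul, Complex.norm_natCast_cpow_of_pos hm]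
      have hm1 : (1:ℝ) ≤ m := by exact_mod_cast hm
      have e1 : (m:ℝ) ^ (-(s - 1 / 2)).re ≤ (m:ℝ) ^ (-τ) := by
        refine Real.rpow_le_rpow_of_exponent_le hm1 ?_
        have : (-(s - 1 / 2)).re = -(s.re - 1 / 2) := by
          rw [Complex.neg_re, Complex.sub_re]; norm_num
        rw [this]; linarith
      calc ‖a m‖ * (m:ℝ) ^ (-(s - 1 / 2)).re ≤ 1 * (m:ℝ) ^ (-τ) :=
            mul_le_mul (ha m) e1 (by positivity) zero_le_one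
        _ = _ := one_mul _
  set F : ℕ → ℂ := fun q => ∑ x ∈ prs D N q, (cf x.1 : ℂ) * (a x.2 * (x.2 : ℂ) ^ (-(s - 1 / 2))) with hF
  have hFq : ∀ q, ‖F q‖ ≤ ∑ x ∈ prs D N q, Am (PJ J I) |k| x.1 * b x.2 := by
    intro q
    refine norm_sum_le_of_le _ fun x hx => ?_
    have hx1 := (mem_filter.mp hx).1
    rw [mem_product, mem_Icc, mem_Icc] at hx1
    rw [norm_mul, Complex.norm_real, Real.norm_eq_abs]
    exact mul_le_mul (hcf _) (hab _ hx1.2.1) (norm_nonneg _) (s1 _)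
  have hDN : ((D * N : ℕ) : ℝ) ≤ T ^ (1 / 4 : ℝ) := by
    push_cast
    calc (D:ℝ) * N ≤ T ^ (1 / 100 : ℝ) * T ^ (1 / 10 : ℝ) := by gcongr
      _ = T ^ (11 / 100 : ℝ) := by rw [← Real.rpow_add hT0]; norm_num
      _ ≤ T ^ (1 / 4 : ℝ) := Real.rpow_le_rpow_of_exponent_le hT1.le (by norm_num)
  have hmv := hMVD κ hκ (D * N) hDN F
  have hint : ∫ t in Set.Ioi (0:ℝ), om κ (κ / T) t * (‖AZ n Rs J k (zz I t)‖ ^ 2 *
          ‖∑ m ∈ Icc 1 N, a m * (m : ℂ) ^ (-(s + t * Complex.I))‖ ^ 2) =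
      ∫ t in Set.Ioi (0:ℝ), om κ (κ / T) t *
        ‖∑ d ∈ Icc 1 (D * N), F d * (d : ℂ) ^ (-(1 / 2 + t * Complex.I))‖ ^ 2 := by
    refine integral_congr_ae (Eventually.of_forall fun t => ?_)
    simp only
    rw [← mul_pow, ← norm_mul, hAZ t, dir_mul]
  rw [hint]
  refine hmv.trans (add_le_add ?_ ?_)
  · have h1 := hGS (Am (PJ J I) |k|) b (Real.exp (k ^ 2 * VV I J)) M0 D N hM0 s1 s2 s4' s3 hb0 hb1 hbM
    calc ∑ d ∈ Icc 1 (D * N), ‖F d‖ ^ 2 / (d:ℝ) ≤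
        ∑ q ∈ Icc 1 (D * N), (∑ x ∈ (Icc 1 D ×ˢ Icc 1 N).filter (fun x => x.1 * x.2 = q),
          Am (PJ J I) |k| x.1 * b x.2) ^ 2 / (q : ℝ) := by
          refine sum_le_sum fun q _ => ?_
          refine div_le_div_of_nonneg_right ?_ (Nat.cast_nonneg _)
          exact pow_le_pow_left₀ (norm_nonneg _) (hFq q) 2
      _ ≤ CG * (M0:ℝ) ^ (-(τ / 2)) * Real.exp (k ^ 2 * VV I J) := h1
      _ = _ := by ring
  · have h1 : ∑ q ∈ Icc 1 (D * N), ‖F q‖ ≤ (D:ℝ) ^ 2 * N := by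
      calc ∑ q ∈ Icc 1 (D * N), ‖F q‖ ≤ ∑ q ∈ Icc 1 (D * N), ∑ x ∈ prs D N q, Am (PJ J I) |k| x.1 * b x.2 :=
            sum_le_sum fun q _ => hFq q
        _ = ∑ d ∈ Icc 1 D, ∑ m ∈ Icc 1 N, Am (PJ J I) |k| d * b m :=
            sum_prs D N (fun x => Am (PJ J I) |k| x.1 * b x.2)
        _ ≤ ∑ d ∈ Icc 1 D, ∑ m ∈ Icc 1 N, (D:ℝ) * 1 := by
            refine sum_le_sum fun d hd => sum_le_sum fun m hm => ?_
            rw [mem_Icc] at hd hm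
            have hd1 : (1:ℝ) ≤ d := by exact_mod_cast hd.1
            have hm1 : (1:ℝ) ≤ m := by exact_mod_cast hm.1
            refine mul_le_mul ?_ ?_ (hb0 m) (Nat.cast_nonneg _)
            · calc Am (PJ J I) |k| d ≤ (d:ℝ) ^ ε := s4' d
                _ ≤ (d:ℝ) ^ (1:ℝ) := Real.rpow_le_rpow_of_exponent_le hd1 (by linarith)
                _ = d := Real.rpow_one _
                _ ≤ D := by exact_mod_cast hd.2
            · exact (hb1 m hm.1).trans (Real.rpow_le_one_of_one_le_of_nonpos hm1 (by linarith))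
        _ = (D:ℝ) ^ 2 * N := by
            simp only [sum_const, Nat.card_Icc, Nat.add_sub_cancel, nsmul_eq_mul]; ring
    have h0 : 0 ≤ ∑ q ∈ Icc 1 (D * N), ‖F q‖ := sum_nonneg fun _ _ => norm_nonneg _
    have h2 : (D:ℝ) ^ 2 * N ≤ T ^ (12 / 100 : ℝ) := by
      calc (D:ℝ) ^ 2 * N ≤ (T ^ (1 / 100 : ℝ)) ^ 2 * T ^ (1 / 10 : ℝ) := by gcongr
        _ = T ^ (12 / 100 : ℝ) := by
          rw [← Real.rpow_natCast (T ^ (1 / 100 : ℝ)) 2, ← Real.rpow_mul hT0.le, ← Real.rpow_add hT0]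
          norm_num
    calc T ^ (-(1 / 2) : ℝ) * (∑ q ∈ Icc 1 (D * N), ‖F q‖) ^ 2 ≤ T ^ (-(1 / 2) : ℝ) * (T ^ (12 / 100 : ℝ)) ^ 2 := by
          gcongr
          exact h1.trans h2
      _ = T ^ (-(26 / 100) : ℝ) := by
          rw [← Real.rpow_natCast (T ^ (12 / 100 : ℝ)) 2, ← Real.rpow_mul hT0.le, ← Real.rpow_add hT0]
          norm_num
      _ ≤ T ^ (-(1 / 8) : ℝ) := Real.rpow_le_rpow_of_exponent_le hT1.le (by norm_num)

end

end Pool.Agent.Q286.MC
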