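import Pool.Agent.Q286.MC.Rh

/-!
Project MC: the final statement from the windows.
-/

set_option autoImplicit false

namespace Pool.Agent.Q286.MC

open Filter Topology MeasureTheory Complex
open Pool.Agent.TH806 Pool.Agent.TH806.LK
open Pool.Agent.Q286.UZ Pool.Agent.Q286.SB
open Pool.Agent.Y834.UT (hull Tgt SS)

noncomputable section

theorem mom_out (hM : P_MO) (K : Set ℂ) (f : ℂ → ℂ) (ε B : ℝ) (hK : IsCompact K)
    (hKs : ∀ z ∈ K, 1 / 2 < z.re ∧ z.re < 1) (hf : Tgt K f) (hε : 0 < ε) (hB : 0 ≤ B) :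
    ∃ c : ℝ, 0 < c ∧ ∀ α : ℝ, 0 ≤ α → α < 1 → ∀ᶠ T : ℝ in atTop, ∀ H : ℝ, T / Real.log T ^ α ≤ H → H ≤ T →
      ∀ β : ℝ, |β| ≤ B → ENNReal.ofReal (c * H * Real.log T ^ (β ^ 2 / 4)) ≤
        ∫⁻ t in SS ε K f ∩ Set.Icc T (T + H), ENNReal.ofReal (‖riemannZeta (1 / 2 + t * Complex.I)‖ ^ β) := by
  obtain ⟨c, hc, h⟩ := hM K f ε hK hKs hf hε B hB
  refine ⟨c, hc, fun α h0 h1 => ?_⟩
  filter_upwards [h α h0 h1, Real.tendsto_log_atTop.eventually_gt_atTop 0] with T hT hL H hH1 hH2 β hβ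
  have h2 := hT H hH1 hH2 (β / 2) (by rw [abs_div, abs_two]; linarith [abs_nonneg β])
  have e1 : Real.exp ((β / 2) ^ 2 * Real.log (Real.log T)) = Real.log T ^ (β ^ 2 / 4) := by
    rw [Real.rpow_def_of_pos hL]; congr 1; ring
  have e2 : 2 * (β / 2) = β := by ring
  rw [e1, e2] at h2
  exact h2

theorem ld_out (hL : P_LD) (K : Set ℂ) (f : ℂ → ℂ) (ε B η : ℝ) (hK : IsCompact K)
    (hKs : ∀ z ∈ K, 1 / 2 < z.re ∧ z.re < 1) (hf : Tgt K f) (hε : 0 < ε) (hB : 0 ≤ B) (hη : 0 < η) :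
    ∃ c : ℝ, 0 < c ∧ ∀ α : ℝ, 0 ≤ α → α < 1 → ∀ᶠ T : ℝ in atTop, ∀ H : ℝ, T / Real.log T ^ α ≤ H → H ≤ T →
      ∀ V : ℝ, |V| ≤ B * Real.log (Real.log T) → c * H * Real.exp (-(V ^ 2 / Real.log (Real.log T))) ≤
        volume.real {t ∈ SS ε K f ∩ Set.Icc T (T + H) | riemannZeta (1 / 2 + t * Complex.I) ≠ 0 ∧
          |Real.log ‖riemannZeta (1 / 2 + t * Complex.I)‖ - V| ≤ η * Real.sqrt (Real.log (Real.log T))} := by
  obtain ⟨c, hc, h⟩ := hL K f ε hK hKs hf hε B η hB hη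
  refine ⟨c, hc, fun α h0 h1 => ?_⟩
  filter_upwards [h α h0 h1] with T hT H hH1 hH2 V hV
  have h2 := hT H hH1 hH2 V hV
  have e : {t ∈ SS ε K f ∩ Set.Icc T (T + H) | riemannZeta (1 / 2 + t * Complex.I) ≠ 0 ∧
          |Real.log ‖riemannZeta (1 / 2 + t * Complex.I)‖ - V| ≤ η * Real.sqrt (Real.log (Real.log T))} =
      {t ∈ SS ε K f ∩ Set.Icc T (T + H) |
        Real.exp (V - η * Real.sqrt (Real.log (Real.log T))) ≤ Xz t ∧
        Xz t ≤ Real.exp (V + η * Real.sqrt (Real.log (Real.log T)))} := by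
    ext t
    have hX : Xz t = ‖riemannZeta (1 / 2 + t * Complex.I)‖ := rfl
    constructor
    · rintro ⟨h3, h4, h5⟩
      rw [← hX] at h5
      have hX0 : 0 < Xz t := norm_pos_iff.mpr h4
      rw [abs_le] at h5
      refine ⟨h3, ?_, ?_⟩
      · rw [← Real.le_log_iff_exp_le hX0]; linarith [h5.1]
      · rw [← Real.log_le_iff_le_exp hX0]; linarith [h5.2]
    · rintro ⟨h3, h4, h5⟩
      have hX0 : 0 < Xz t := lt_of_lt_of_le (Real.exp_pos _) h4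
      refine ⟨h3, norm_pos_iff.mp hX0, ?_⟩
      rw [← hX, abs_le]
      rw [← Real.le_log_iff_exp_le hX0] at h4
      rw [← Real.log_le_iff_le_exp hX0] at h5
      constructor <;> linarith
  rw [e]
  exact h2

end

end Pool.Agent.Q286.MC
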