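import Pool.Agent.Q286.MC.Mid
import Pool.Agent.Q286.MC.Dir
import Pool.Agent.Q286.MC.Out
import Pool.Agent.Q34.MC.Rarem
import Pool.Agent.Q34.MC.Gm
import Pool.Agent.Q34.MC.Pfl
import Pool.Agent.Q34.MC.Setx
import Pool.Agent.Q210.MC.Tlb
import Pool.Agent.Q210.MC.Bes
import Pool.Agent.Q210.MC.Coef
import Pool.Agent.Q285.MC.Gs
import Pool.Agent.Q285.MC.Key
import Pool.Agent.Q285.MC.Mvd
import Pool.Agent.Q285.MC.Suma

set_option autoImplicit false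

namespace Pool.Agent.Q286.MC

theorem a_CW (tm : P_TM) (badw : P_DIRAZ → P_BADW) : P_CW :=
  t_CW (t_MID Pool.Agent.Q34.MC.Setx.setx (Pool.Agent.Q210.MC.tlb tm) Pool.Agent.Q285.MC.key Pool.Agent.Q210.MC.bes
    (badw (t_DIRAZ Pool.Agent.Q210.MC.coef Pool.Agent.Q285.MC.suma Pool.Agent.Q285.MC.mvd Pool.Agent.Q285.MC.gs))
    Pool.Agent.Q34.MC.Gm.gm Pool.Agent.Q34.MC.Pfl.pfl)

end Pool.Agent.Q286.MC
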