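import Pool.Agent.Q286.MC.Defs
import Pool.Agent.Q286.SB.Rare
import Pool.Agent.TH806.LM.Win2

/-!
Project MC: from the values of zeta near the points `u_j` to the moments.
-/

set_option autoImplicit false

namespace Pool.Agent.Q286.MC

open Finset Filter Topology MeasureTheory Complex MonoidAlgebra
open Pool.Agent.W184.NZ
open Pool.Agent.TH806 Pool.Agent.TH806.LK
open Pool.Agent.H306R2.SM (om cl Yf)
open Pool.Agent.H262R4.TM (Rng Ck)
open Pool.Agent.Q286.UZ Pool.Agent.Q286.SB ZU TH803TW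

noncomputable section

/-- most of the points `u_j` are good -/
def P_MID : Prop := ∀ (K : Set ℂ) (f : ℂ → ℂ) (ε : ℝ), IsCompact K → (∀ z ∈ K, 1 / 2 < z.re ∧ z.re < 1) →
  Pool.Agent.Y834.UT.Tgt K f → 0 < ε → ∀ B η : ℝ, 0 ≤ B → 0 < η → η ≤ 1 →
  ∃ (Rs : ℕ) (c₂ B' c' M' DV : ℝ), 0 < c₂ ∧ 0 < B' ∧ 0 < c' ∧ 0 < M' ∧ 0 ≤ DV ∧ ∀ᶠ T : ℝ in atTop,
  ∀ κ : ℕ, Rng T κ → ∃ (J : ℕ) (I : ℕ → Finset ℕ) (A : Set ℝ), MeasurableSet A ∧
    A ⊆ Pool.Agent.Y834.UT.SS ε K f ∧ (∀ i, Continuous fun t => zz I t i) ∧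
    |VV I J - Real.log (Real.log T)| ≤ DV ∧ ∀ k₀ σ : ℝ, |k₀| ≤ B → (σ = 1 ∨ σ = -1) → ∀ m : ℕ,
      Real.pi * m ≤ η * Real.sqrt (VV I J) → η * Real.sqrt (VV I J) ≤ 8 * m →
      ∃ G ⊆ range m, 3 / 4 * (m : ℝ) ≤ (G.card : ℝ) ∧ ∀ j ∈ G,
        c₂ * ((1 + VV I J) ^ (-(1 / 2) : ℝ) * Real.exp (-(kj k₀ σ (VV I J) j ^ 2 * VV I J))) ≤
          ∫ t in Set.Ioi (0:ℝ) ∩ (SS Rs J I (kj k₀ σ (VV I J) j * VV I J) B' c' M' ∩ A), om κ (κ / T) t

lemma card_ov {x u₀ σ B' : ℝ} (hσ : σ = 1 ∨ σ = -1) (hB : 0 ≤ B') (G : Finset ℕ) :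
    ((G.filter (fun j : ℕ => |x - (u₀ + σ * (Real.pi * j))| ≤ B')).card : ℝ) ≤ B' + 1 := by
  classical
  set F := G.filter (fun j : ℕ => |x - (u₀ + σ * (Real.pi * j))| ≤ B') with hF
  rcases F.eq_empty_or_nonempty with h | h
  · rw [h]; simp; linarith
  · set a := F.min' h with ha
    have hsub : F ⊆ Finset.Icc a (a + ⌊B'⌋₊) := by
      intro j hj
      rw [Finset.mem_Icc]
      have h1 : a ≤ j := F.min'_le j hj
      refine ⟨h1, ?_⟩
      have h2 := (Finset.mem_filter.mp (F.min'_mem h)).2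
      have h3 := (Finset.mem_filter.mp hj).2
      have h4 : Real.pi * ((j:ℝ) - a) ≤ 2 * B' := by
        have h5 := abs_le.mp h2
        have h6 := abs_le.mp h3
        rcases hσ with h | h <;> rw [h] at h5 h6 <;> linarith [h5.1, h5.2, h6.1, h6.2]
      have h7 : ((j:ℝ) - a) ≤ B' := by
        have h8 := Real.pi_gt_three
        have h9 : (0:ℝ) ≤ (j:ℝ) - a := by
          have : (a:ℝ) ≤ j := by exact_mod_cast h1
          linarith
        nlinarith
      have h10 : j - a ≤ ⌊B'⌋₊ := by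
        apply Nat.le_floor
        push_cast [Nat.cast_sub h1]
        exact h7
      omega
    have h1 := Finset.card_le_card hsub
    rw [Nat.card_Icc] at h1
    have h2 : (F.card : ℝ) ≤ (⌊B'⌋₊ : ℝ) + 1 := by
      have : F.card ≤ ⌊B'⌋₊ + 1 := by omega
      exact_mod_cast this
    linarith [Nat.floor_le hB]

lemma kjV {k₀ σ V : ℝ} (hV : V ≠ 0) (j : ℕ) : kj k₀ σ V j * V = k₀ * V + σ * (Real.pi * j) := by
  unfold kj; field_simp

lemma Rk_meas (L k η : ℝ) : MeasurableSet (Rk L k η) := by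
  unfold Rk
  have h := Xz_cont.measurable
  exact (measurableSet_le (h.pow_const _) measurable_const).inter
    ((measurableSet_le measurable_const h).inter (measurableSet_le h measurable_const))

lemma Xz_pow_int {κ : ℕ} {δ : ℝ} (hδ : 0 < δ) {S : Set ℝ} (hS : MeasurableSet S) {k C : ℝ}
    (hC : ∀ t ∈ S, Xz t ^ (2 * k) ≤ C) :
    IntegrableOn (fun t => om κ δ t * Xz t ^ (2 * k)) (Set.Ioi (0:ℝ) ∩ S) := by
  have h1 : IntegrableOn (fun t => om κ δ t) (Set.Ioi (0:ℝ) ∩ S) :=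
    (om_int0 κ hδ).mono_set Set.inter_subset_left
  refine h1.mul_bdd (c := C) (Xz_cont.measurable.pow_const _).aestronglyMeasurable ?_
  refine (ae_restrict_iff' (measurableSet_Ioi.inter hS)).mpr (Eventually.of_forall fun t ht => ?_)
  rw [Real.norm_of_nonneg (Real.rpow_nonneg (Xz_nonneg _) _)]
  exact hC t ht.2

/-- values on the sets `SS` -/
lemma SS_log {Rs J : ℕ} {I : ℕ → Finset ℕ} {u B' c' M' t : ℝ} (hc' : 0 < c') (hM' : 0 < M')
    (ht : t ∈ SS Rs J I u B' c' M') : 0 < Xz t ∧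
      |Real.log (Xz t) - u| ≤ B' + |Real.log c'| + |Real.log M'| := by
  obtain ⟨_, h1, h2, h3⟩ := ht
  have h0 : 0 < Xz t := lt_of_lt_of_le (by positivity) h2
  refine ⟨h0, ?_⟩
  have e1 := Real.log_le_log (by positivity) h2
  have e2 := Real.log_le_log h0 h3
  rw [Real.log_mul hc'.ne' (Real.exp_pos _).ne', Real.log_exp] at e1
  rw [Real.log_mul hM'.ne' (Real.exp_pos _).ne', Real.log_exp] at e2
  have h4 := abs_le.mp h1
  have a1 := neg_abs_le (Real.log c')
  have a2 := le_abs_self (Real.log M')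
  have a3 := abs_nonneg (Real.log c')
  have a4 := abs_nonneg (Real.log M')
  rw [abs_le]
  constructor <;> linarith [h4.1, h4.2]

theorem t_CW (hM : P_MID) : P_CW := by
  intro K f ε hK hKs hT hε B η hB hη
  set η₁ : ℝ := min η 1 / 4 with hη₁
  have hη10 : 0 < η₁ := by positivity
  have hη11 : η₁ ≤ 1 := by
    have := min_le_right η 1; rw [hη₁]; linarith
  have hη1η : 4 * η₁ ≤ η := by
    have := min_le_left η 1; rw [hη₁]; linarith
  obtain ⟨Rs, c₂, B', c', M', DV, hc₂, hB', hc', hM', hDV, hmid⟩ := hM K f ε hK hKs hT hε B η₁ hB hη10 hη11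
  set Cs : ℝ := B' + |Real.log c'| + |Real.log M'| with hCs
  have hCs0 : 0 < Cs := by positivity
  set j0 : ℕ := ⌈Cs + B * DV⌉₊ with hj0
  have hj0' : Cs + B * DV ≤ j0 := Nat.le_ceil _
  set cj : ℝ := c₂ * Real.exp (-(1 + 2 * B * Cs)) with hcj
  have hcj0 : 0 < cj := by positivity
  refine ⟨η₁ / 32 * cj * Real.exp (-(B ^ 2 * DV)) / (B' + 1), by positivity, ?_⟩
  have hll := Real.tendsto_log_atTop.comp Real.tendsto_log_atTop
  have hsq : Tendsto (fun T : ℝ => Real.sqrt (Real.log (Real.log T))) atTop atTop :=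
    Real.tendsto_sqrt_atTop.comp hll
  filter_upwards [hmid, hll.eventually_ge_atTop (2 + 2 * DV),
    hsq.eventually_ge_atTop ((Cs + B * DV) * 2 / η + 1),
    hsq.eventually_ge_atTop (2 * (16 * (j0 + 1)) / η₁ + 1), Real.tendsto_log_atTop.eventually_ge_atTop 1,
    eventually_gt_atTop (0:ℝ)] with T hmid hl1 hl2 hl3 hL1 hT0 κ hκ k hk
  simp only [Function.comp] at hl1
  obtain ⟨J, I, A, mA, hA, hz, hVl, hmid⟩ := hmid κ hκ
  set l := Real.log (Real.log T) with hl
  set V := VV I J with hV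
  obtain ⟨hVa, hVb⟩ := abs_le.mp hVl
  have hV1 : 1 ≤ V := by linarith
  have hV0 : 0 < V := by linarith
  have hκ0 : (0:ℝ) < κ := by
    have := hκ.1
    nlinarith
  have hδ : 0 < (κ:ℝ) / T := by positivity
  -- square roots
  have hVl2 : V ≤ 4 * l := by linarith
  have hlV2 : l ≤ 4 * V := by linarith
  have hl0 : 0 < l := by linarith
  have s1 : Real.sqrt V ≤ 2 * Real.sqrt l := by
    rw [Real.sqrt_le_left (by positivity), mul_pow, Real.sq_sqrt hl0.le]; linarith
  have s2 : Real.sqrt l ≤ 2 * Real.sqrt V := by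
    rw [Real.sqrt_le_left (by positivity), mul_pow, Real.sq_sqrt hV0.le]; linarith
  have hsV0 : 0 < Real.sqrt V := Real.sqrt_pos.mpr hV0
  have hsl0 : 0 < Real.sqrt l := Real.sqrt_pos.mpr hl0
  set m : ℕ := ⌊η₁ * Real.sqrt V / Real.pi⌋₊ with hm
  have hpi := Real.pi_pos
  have hpi3 := Real.pi_gt_three
  have hpi4 := Real.pi_lt_four
  have hm1 : (m:ℝ) ≤ η₁ * Real.sqrt V / Real.pi := Nat.floor_le (by positivity)
  have hm1' : Real.pi * m ≤ η₁ * Real.sqrt V := by
    rw [le_div_iff₀ hpi] at hm1; linarith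
  have hm2 : η₁ * Real.sqrt V / Real.pi < m + 1 := Nat.lt_floor_add_one _
  have hbigV : 16 * ((j0:ℝ) + 1) ≤ η₁ * Real.sqrt V := by
    have e1 : 2 * (16 * ((j0:ℝ) + 1)) / η₁ ≤ Real.sqrt l := by linarith
    rw [div_le_iff₀ hη10] at e1
    nlinarith
  have hm3 : η₁ * Real.sqrt V ≤ 8 * m := by
    rw [div_lt_iff₀ hpi] at hm2
    have hj : (0:ℝ) ≤ j0 := Nat.cast_nonneg _
    nlinarith
  have hmj : 4 * (j0:ℝ) ≤ m := by
    rw [div_lt_iff₀ hpi] at hm2
    have hj : (0:ℝ) ≤ j0 := Nat.cast_nonneg _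
    nlinarith
  set σ : ℝ := if 0 ≤ k then -1 else 1 with hσd
  have hσ : σ = 1 ∨ σ = -1 := by
    rw [hσd]; split_ifs
    · exact Or.inr rfl
    · exact Or.inl rfl
  have hkσ : k * σ = -|k| := by
    rw [hσd]; split_ifs with h
    · rw [abs_of_nonneg h]; ring
    · rw [abs_of_neg (by linarith)]; ring
  have hσa : |σ| = 1 := by rcases hσ with h | h <;> rw [h] <;> norm_num
  obtain ⟨G, hGm, hGc, hG⟩ := hmid k σ hk hσ m hm1' hm3
  set G' := G.filter (fun j => j0 ≤ j) with hG'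
  have hG'c : (m:ℝ) / 2 ≤ G'.card := by
    have h1 : G.card ≤ G'.card + j0 := by
      have h4 : G ⊆ G' ∪ range j0 := by
        intro j hj
        rw [mem_union, hG', mem_filter, mem_range]
        by_cases h : j0 ≤ j
        · exact Or.inl ⟨hj, h⟩
        · exact Or.inr (by omega)
      have h5 := (Finset.card_le_card h4).trans (Finset.card_union_le _ _)
      rwa [card_range] at h5
    have h5 : (G.card : ℝ) ≤ G'.card + j0 := by exact_mod_cast h1
    linarith
  -- abbreviations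
  set u : ℕ → ℝ := fun j => kj k σ V j * V with hu
  have hue : ∀ j : ℕ, u j = k * V + σ * (Real.pi * j) := fun j => kjV hV0.ne' j
  set Aj : ℕ → Set ℝ := fun j => SS Rs J I (u j) B' c' M' ∩ A with hAj
  have mAj : ∀ j, MeasurableSet (Aj j) := fun j => (SS_meas hz _ _ _ _).inter mA
  have hBk : 0 ≤ |k| := abs_nonneg k
  -- inclusion
  have hincl : ∀ j ∈ G', Aj j ⊆ Pool.Agent.Y834.UT.SS ε K f ∩ Rk l k η := by
    intro j hj t ht
    rw [hG', mem_filter] at hj
    obtain ⟨hjG, hjj⟩ := hj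
    have hjm : j < m := mem_range.mp (hGm hjG)
    obtain ⟨ht1, ht2⟩ := ht
    obtain ⟨hX0, hX⟩ := SS_log hc' hM' ht1
    rw [← hCs, hue] at hX
    obtain ⟨x1, x2⟩ := abs_le.mp hX
    have hj0r : (j0:ℝ) ≤ j := by exact_mod_cast hjj
    have hjmr : (j:ℝ) ≤ m := by exact_mod_cast hjm.le
    have hpj : Real.pi * j ≤ η₁ * Real.sqrt V := by nlinarith
    have hpj0 : 0 ≤ Real.pi * (j:ℝ) := by positivity
    refine ⟨hA ht2, ?_, ?_, ?_⟩
    · rw [Real.rpow_def_of_pos hX0]
      apply Real.exp_le_exp.mpr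
      have e1 : k * (Real.log (Xz t) - (k * V + σ * (Real.pi * j))) ≤ |k| * Cs := by
        refine (le_abs_self _).trans ?_
        rw [abs_mul]; gcongr
      have e2 : k * (k * V + σ * (Real.pi * j)) = k ^ 2 * V - |k| * (Real.pi * j) := by
        linear_combination (Real.pi * j) * hkσ
      have e3 : k ^ 2 * V ≤ k ^ 2 * l + |k| * (B * DV) := by
        have : k ^ 2 * (V - l) ≤ |k| * (B * DV) := by
          rw [← sq_abs k, sq, mul_assoc]
          refine mul_le_mul_of_nonneg_left ?_ hBk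
          calc |k| * (V - l) ≤ |k| * DV := mul_le_mul_of_nonneg_left hVb hBk
            _ ≤ B * DV := mul_le_mul_of_nonneg_right hk hDV
        linarith
      have e4 : Cs + B * DV ≤ Real.pi * j := by nlinarith
      have e5 : |k| * (Cs + B * DV) ≤ |k| * (Real.pi * j) := by gcongr
      nlinarith
    · rw [← Real.log_le_log_iff (Real.exp_pos _) hX0, Real.log_exp]
      have e1 : |σ * (Real.pi * j)| ≤ η₁ * Real.sqrt V := by
        rw [abs_mul, hσa, one_mul, abs_of_nonneg hpj0]; exact hpj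
      have e2 : |k * (V - l)| ≤ B * DV := by
        rw [abs_mul]; gcongr
      have e3 : Cs + B * DV ≤ η / 2 * Real.sqrt l := by
        have : (Cs + B * DV) * 2 / η ≤ Real.sqrt l := by linarith
        rw [div_le_iff₀ hη] at this
        linarith
      obtain ⟨a1, a2⟩ := abs_le.mp e1
      obtain ⟨b1, b2⟩ := abs_le.mp e2
      nlinarith
    · rw [← Real.log_le_log_iff hX0 (Real.exp_pos _), Real.log_exp]
      have e1 : |σ * (Real.pi * j)| ≤ η₁ * Real.sqrt V := by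
        rw [abs_mul, hσa, one_mul, abs_of_nonneg hpj0]; exact hpj
      have e2 : |k * (V - l)| ≤ B * DV := by
        rw [abs_mul]; gcongr
      have e3 : Cs + B * DV ≤ η / 2 * Real.sqrt l := by
        have : (Cs + B * DV) * 2 / η ≤ Real.sqrt l := by linarith
        rw [div_le_iff₀ hη] at this
        linarith
      obtain ⟨a1, a2⟩ := abs_le.mp e1
      obtain ⟨b1, b2⟩ := abs_le.mp e2
      nlinarith
  set R : Set ℝ := Pool.Agent.Y834.UT.SS ε K f ∩ Rk l k η with hR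
  have mR : MeasurableSet R :=
    (SS_open hK (fun z hz => (hKs z hz).2) f ε).measurableSet.inter (Rk_meas _ _ _)
  set F : ℝ → ℝ := fun t => om κ (κ / T) t * Xz t ^ (2 * k) with hF
  have iR : IntegrableOn F (Set.Ioi (0:ℝ) ∩ R) := Xz_pow_int hδ mR (fun t ht => ht.2.1)
  have F0 : ∀ t ∈ Set.Ioi (0:ℝ), 0 ≤ F t := fun t ht =>
    mul_nonneg (om_nn κ hδ (le_of_lt ht)) (Real.rpow_nonneg (Xz_nonneg _) _)
  -- the lower bound of one term
  set w : ℝ := (1 + V) ^ (-(1 / 2) : ℝ) with hw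
  have hw0 : 0 < w := by positivity
  have hone : ∀ j ∈ G', cj * (w * Real.exp (k ^ 2 * V)) ≤ ∫ t in Set.Ioi (0:ℝ) ∩ Aj j, F t := by
    intro j hj
    have hjG := (mem_filter.mp hj).1
    have hjm : j < m := mem_range.mp (hGm hjG)
    have hjmr : (j:ℝ) ≤ m := by exact_mod_cast hjm.le
    have hpj : Real.pi * j ≤ η₁ * Real.sqrt V := by nlinarith
    have h1 := hG j hjG
    have hlow : ∀ t ∈ Set.Ioi (0:ℝ) ∩ Aj j,
        Real.exp (2 * k * u j - 2 * B * Cs) * om κ (κ / T) t ≤ F t := by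
      intro t ht
      obtain ⟨hX0, hX⟩ := SS_log hc' hM' ht.2.1
      rw [← hCs] at hX
      rw [hF]
      simp only
      rw [mul_comm]
      refine mul_le_mul_of_nonneg_left ?_ (om_nn κ hδ (le_of_lt ht.1))
      rw [Real.rpow_def_of_pos hX0]
      apply Real.exp_le_exp.mpr
      have e1 : -(|k| * Cs) ≤ k * (Real.log (Xz t) - u j) := by
        have : |k * (Real.log (Xz t) - u j)| ≤ |k| * Cs := by rw [abs_mul]; gcongr
        exact (abs_le.mp this).1
      have e2 : |k| * Cs ≤ B * Cs := by gcongr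
      nlinarith
    have iom : IntegrableOn (fun t => om κ (κ / T) t) (Set.Ioi (0:ℝ) ∩ Aj j) :=
      (om_int0 κ hδ).mono_set Set.inter_subset_left
    have iF : IntegrableOn F (Set.Ioi (0:ℝ) ∩ Aj j) :=
      iR.mono_set (Set.inter_subset_inter_right _ (hincl j hj))
    have h2 : Real.exp (2 * k * u j - 2 * B * Cs) * ∫ t in Set.Ioi (0:ℝ) ∩ Aj j, om κ (κ / T) t ≤
        ∫ t in Set.Ioi (0:ℝ) ∩ Aj j, F t := by
      rw [← integral_const_mul]
      exact setIntegral_mono_on (iom.const_mul _) iF (measurableSet_Ioi.inter (mAj j)) hlow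
    refine le_trans ?_ h2
    refine le_trans ?_ (mul_le_mul_of_nonneg_left h1 (Real.exp_pos _).le)
    have e1 : 2 * k * u j - kj k σ V j ^ 2 * V = k ^ 2 * V - (Real.pi * j) ^ 2 / V := by
      rw [hu]
      simp only
      unfold kj
      have : σ ^ 2 = 1 := by rcases hσ with h | h <;> rw [h] <;> norm_num
      field_simp
      linear_combination (-(Real.pi * (j:ℝ)) ^ 2) * this
    have e2 : (Real.pi * j) ^ 2 / V ≤ 1 := by
      rw [div_le_one hV0]
      calc (Real.pi * j) ^ 2 ≤ (η₁ * Real.sqrt V) ^ 2 := by gcongr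
        _ = η₁ ^ 2 * V := by rw [mul_pow, Real.sq_sqrt hV0.le]
        _ ≤ 1 * V := by
            gcongr
            exact pow_le_one₀ hη10.le hη11
        _ = V := one_mul V
    calc cj * (w * Real.exp (k ^ 2 * V)) = c₂ * (w * (Real.exp (-(1 + 2 * B * Cs)) * Real.exp (k ^ 2 * V))) := by
          rw [hcj]; ring
      _ ≤ c₂ * (w * (Real.exp (2 * k * u j - 2 * B * Cs) * Real.exp (-(kj k σ V j ^ 2 * V)))) := by
          refine mul_le_mul_of_nonneg_left (mul_le_mul_of_nonneg_left ?_ hw0.le) hc₂.le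
          rw [← Real.exp_add, ← Real.exp_add]
          apply Real.exp_le_exp.mpr
          linarith
      _ = _ := by ring
  -- the sum
  clear_value G'
  have hsum : ∑ j ∈ G', ∫ t in Set.Ioi (0:ℝ) ∩ Aj j, F t ≤ (B' + 1) * ∫ t in Set.Ioi (0:ℝ) ∩ R, F t := by
    have e1 : ∀ j ∈ G', ∫ t in Set.Ioi (0:ℝ) ∩ Aj j, F t =
        ∫ t in Set.Ioi (0:ℝ) ∩ R, (Aj j).indicator F t := by
      intro j hj
      rw [setIntegral_indicator (mAj j)]
      congr 2
      ext t
      constructor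
      · intro ht
        exact ⟨⟨ht.1, hincl j hj ht.2⟩, ht.2⟩
      · intro ht
        exact ⟨ht.1.1, ht.2⟩
    rw [sum_congr rfl e1, ← integral_finsetSum _ (fun j _ => iR.indicator (mAj j)), ← integral_const_mul]
    refine setIntegral_mono_on (integrable_finsetSum _ fun j _ => iR.indicator (mAj j))
      (iR.const_mul _) (measurableSet_Ioi.inter mR) fun t ht => ?_
    have e2 : ∑ j ∈ G', (Aj j).indicator F t ≤
        ∑ j ∈ G'.filter (fun j : ℕ => |xx I J t - (k * V + σ * (Real.pi * j))| ≤ B'), F t := by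
      rw [sum_filter]
      refine sum_le_sum fun j _ => ?_
      by_cases h : t ∈ Aj j
      · rw [Set.indicator_of_mem h, if_pos]
        have := h.1.2.1
        rw [hue] at this
        exact this
      · rw [Set.indicator_of_notMem h]
        split_ifs
        · exact F0 t ht.1
        · exact le_rfl
    refine e2.trans ?_
    rw [sum_const, nsmul_eq_mul]
    exact mul_le_mul_of_nonneg_right (card_ov hσ hB'.le _) (F0 t ht.1)
  have hsum2 : (G'.card : ℝ) * (cj * (w * Real.exp (k ^ 2 * V))) ≤ ∑ j ∈ G', ∫ t in Set.Ioi (0:ℝ) ∩ Aj j, F t := by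
    rw [← nsmul_eq_mul, ← sum_const]
    exact sum_le_sum hone
  have hfin : (m:ℝ) / 2 * (cj * (w * Real.exp (k ^ 2 * V))) ≤ (B' + 1) * ∫ t in Set.Ioi (0:ℝ) ∩ R, F t :=
    (mul_le_mul_of_nonneg_right hG'c (by positivity)).trans (hsum2.trans hsum)
  have hmw : η₁ / 16 ≤ (m:ℝ) * w := by
    have e1 : Real.sqrt V * w ≥ 1 / 2 := by
      have e2 : w = (Real.sqrt (1 + V))⁻¹ := by
        rw [hw, Real.sqrt_eq_rpow, Real.rpow_neg (by linarith)]
      have e3 : Real.sqrt (1 + V) ≤ 2 * Real.sqrt V := by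
        rw [Real.sqrt_le_left (by positivity), mul_pow, Real.sq_sqrt hV0.le]; linarith
      have e4 : 0 < Real.sqrt (1 + V) := Real.sqrt_pos.mpr (by linarith)
      rw [e2, ge_iff_le, ← div_eq_mul_inv, le_div_iff₀ e4]
      linarith
    have e5 : η₁ * (Real.sqrt V * w) ≤ 8 * (m * w) := by
      have := mul_le_mul_of_nonneg_right hm3 hw0.le
      linarith
    nlinarith
  have hexp : Real.exp (-(B ^ 2 * DV)) * Real.exp (k ^ 2 * l) ≤ Real.exp (k ^ 2 * V) := by
    rw [← Real.exp_add]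
    apply Real.exp_le_exp.mpr
    have h1 : k ^ 2 ≤ B ^ 2 := by
      rw [← sq_abs k]; exact pow_le_pow_left₀ (abs_nonneg _) hk 2
    have h2 : k ^ 2 * (l - V) ≤ B ^ 2 * DV := by
      calc k ^ 2 * (l - V) ≤ k ^ 2 * DV := by gcongr; linarith
        _ ≤ B ^ 2 * DV := by gcongr
    linarith
  have hB1 : 0 < B' + 1 := by linarith
  have key : η₁ / 32 * cj * Real.exp (-(B ^ 2 * DV)) / (B' + 1) * Real.exp (k ^ 2 * l) ≤
      ∫ t in Set.Ioi (0:ℝ) ∩ R, F t := by
    rw [div_mul_eq_mul_div, div_le_iff₀ hB1, mul_comm (∫ t in Set.Ioi (0:ℝ) ∩ R, F t)]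
    refine le_trans ?_ hfin
    calc η₁ / 32 * cj * Real.exp (-(B ^ 2 * DV)) * Real.exp (k ^ 2 * l) =
          (η₁ / 16) * (cj * (Real.exp (-(B ^ 2 * DV)) * Real.exp (k ^ 2 * l))) / 2 := by ring
      _ ≤ ((m:ℝ) * w) * (cj * Real.exp (k ^ 2 * V)) / 2 := by gcongr
      _ = (m:ℝ) / 2 * (cj * (w * Real.exp (k ^ 2 * V))) := by ring
  exact key

end

end Pool.Agent.Q286.MC
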