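import Pool.Agent.TH806.LM.Defs
import Pool.Agent.TH806.LK.Win
import Pool.Agent.Q286.SB.Law

/-!
# Project MC: moments of every real order inside universality classes

Row MP_f9aece_nt (helper286). For a compact set `K` in `1/2 < Re s < 1`, a target `f` of Voronin's theorem on `K` and
`ε > 0` let `S(ε)` be the set of the real `t` with `sup_K |ζ(s + it) - f(s)| < ε`. Goal: for every real `β` the integral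
of `|ζ(1/2 + it)|^β` over `S(ε) ∩ [T, T + H]` is `≥ c H (log T)^(β²/4)`, and large deviations inside the classes.

Notation: the LK project (`Pool.Agent.TH806.LK.Defs`): blocks `I i` (`i < J`) of primes, `zz I t i` the sum over the
primes of block `i` of `p^(-1/2-it)`, `xx I J t` the real part of their sum, `AZ n Rs J k` the product of truncated
exponentials `exp (k z_i)`, `DK n Rs J hh u` the Fourier integral which localises `xx` at `u`,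
`AD n Rs J I a u t = |AZ a|² |DK u|²`, `WW s V = (1 + V)^(-1/2) exp (s V)`, `VV I J` the variance, `Cfg c e P₀ y J I` the
admissible configurations. Torus: `tP M t` has the coordinates `t log p / 2π mod 1`, `p ≤ M`, `rr M j = p_j^(-1/2)`.
-/

set_option autoImplicit false

namespace Pool.Agent.Q286.MC

open Finset Filter Topology MeasureTheory Complex MonoidAlgebra
open Pool.Agent.W184.NZ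
open Pool.Agent.TH806 Pool.Agent.TH806.LK
open Pool.Agent.H306R2.SM (om cl Yf)
open Pool.Agent.H262R4.TM (Rng Ck)
open Pool.Agent.Q286.UZ Pool.Agent.Q286.SB ZU TH803TW

noncomputable section

/-! ### JOB SET -/

/-- configurations with an almost sharp lower bound for the variance -/
def P_SETx : Prop := ∃ c A₀ : ℝ, 0 ≤ c ∧ 0 ≤ A₀ ∧ ∀ e : ℝ, 0 < e → ∃ P₁ : ℕ, ∀ P₂ : ℕ, P₁ ≤ P₂ → 3 ≤ P₂ →
  ∀ y : ℝ, 144 ≤ y → ∃ (J : ℕ) (I : ℕ → Finset ℕ), Cfg c e P₂ y J I ∧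
    Real.log (Real.log y) - A₀ - Real.log (Real.log P₂) ≤ VV I J

/-! ### JOB TORF: the first moment of zeta, twisted by blocks and by a function of the small primes -/

/-- the Euler product over the primes `≤ M` at `1/2 + it`, as a function on the torus -/
def PF (M : ℕ) (x : UnitAddTorus (Fin (kk M))) : ℂ := ∏ j, (1 - (rr M j : ℂ) * fourier (-1) (x j))⁻¹

/-- the limit functional of the twisted first moment -/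
def mF1 (M : ℕ) (h : UnitAddTorus (Fin (kk M)) → ℂ) : ℂ := ∫ x, h x * PF M x ∂(haarT (kk M))

/-- the Fourier coefficients of `PF` -/
def P_FPF : Prop := ∀ (M : ℕ) (m : Fin (kk M) → ℤ),
  mF1 M (fun x => UnitAddTorus.mFourier m x) = ∏ j, if 0 ≤ m j then (rr M j : ℂ) ^ (m j).toNat else 0

/-- the product of the blocks which is used for the lower bound -/
def BK (n Rs J : ℕ) (I : ℕ → Finset ℕ) (k u t : ℝ) : ℂ :=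
  starRingEnd ℂ (AZ n Rs J k (zz I t)) * AZ n Rs J (k - 1) (zz I t) * ((‖DK n Rs J hh u (zz I t)‖ ^ 2 : ℝ) : ℂ)

/-- the twist by a monomial in small primes (`a`, `b` composed of primes `≤ M`) decouples -/
def P_TM : Prop := ∀ n : ℕ, 1 ≤ n → ∃ (P₀ : ℕ) (η : ℝ), 0 < η ∧ ∀ (M a b : ℕ), 1 ≤ a → 1 ≤ b →
  (∀ p : ℕ, p.Prime → p ∣ a * b → p ≤ M) → ∀ Rs : ℕ, 1 ≤ Rs → ∀ᶠ T : ℝ in atTop, ∀ κ : ℕ, Rng T κ →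
  ∀ (c e y : ℝ) (J : ℕ) (I : ℕ → Finset ℕ), Cfg c e P₀ y J I → (∀ i, ∀ p ∈ I i, M < p) →
    n * ((Rs:ℝ) + 1) * Real.log y ≤ η * Real.log T → ∀ k u : ℝ, |k| + 1 ≤ n →
    ‖(∫ t in Set.Ioi (0:ℝ), ((om κ (κ / T) t : ℝ) : ℂ) * (riemannZeta (cl t) * (mh t (a, b) * BK n Rs J I k u t))) -
      ((wF (a, b) : ℝ) : ℂ) *
        ∫ t in Set.Ioi (0:ℝ), ((om κ (κ / T) t : ℝ) : ℂ) * (riemannZeta (cl t) * BK n Rs J I k u t)‖ ≤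
      T ^ (-(1 / 3) : ℝ)

/-- the lower bound with a function of the small primes -/
def P_TLB : Prop := ∀ (n : ℕ) (c : ℝ), 1 ≤ n → 0 ≤ c → ∃ (P₀ R₀ : ℕ) (c₁ e₀ η : ℝ), 0 < c₁ ∧ 0 < e₀ ∧ e₀ ≤ 1 ∧ 0 < η ∧
  ∀ (M : ℕ) (h : C(UnitAddTorus (Fin (kk M)), ℂ)), (∀ x, ‖h x‖ ≤ 1) → (mF1 M h).im = 0 → 0 ≤ (mF1 M h).re →
  ∀ κ₀ : ℝ, 0 < κ₀ → ∀ Rs : ℕ, R₀ ≤ Rs → 1 ≤ Rs → ∀ᶠ T : ℝ in atTop, ∀ κ : ℕ, Rng T κ →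
  ∀ (y : ℝ) (J : ℕ) (I : ℕ → Finset ℕ), Cfg c e₀ P₀ y J I → (∀ i, ∀ p ∈ I i, M < p) →
    n * ((Rs:ℝ) + 1) * Real.log y ≤ η * Real.log T → ∀ k : ℝ, |k| + 1 ≤ n →
    (c₁ * (mF1 M h).re - κ₀ * (1 + Real.log T * Real.exp (-VV I J))) * WW (k ^ 2) (VV I J) ≤
      (∫ t in Set.Ioi (0:ℝ), ((om κ (κ / T) t : ℝ) : ℂ) * (riemannZeta (cl t) *
        (h (tP M t) * BK n Rs J I k (k * VV I J) t))).re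

/-! ### JOB KEY: the pointwise comparison with an exceptional set -/

def P_KEY : Prop := ∀ (n Rs J : ℕ) (I : ℕ → Finset ℕ), (∀ i, ∀ p ∈ I i, p.Prime) → 1 ≤ n → 1 ≤ Rs →
  ∀ (κ : ℕ) (T : ℝ), 0 < (κ:ℝ) / T → ∀ (E : Set ℝ) (h : ℝ → ℂ), MeasurableSet E → Continuous h → (∀ t, ‖h t‖ ≤ 1) →
  ∀ u k lam B' c' M' : ℝ, |k| + 1 ≤ n → 0 < lam → 0 < B' → 0 < c' → 0 < M' →
    (∫ t in Set.Ioi (0:ℝ), ((om κ (κ / T) t : ℝ) : ℂ) * (riemannZeta (cl t) * (h t * BK n Rs J I k u t))).re ≤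
      (64 * M' * Real.exp (2 * k * u + 2 * |k| * B')) *
        (∫ t in Set.Ioi (0:ℝ) ∩ (SS Rs J I u B' c' M' ∩ (Eᶜ ∩ {t | h t ≠ 0})), om κ (κ / T) t) +
      (lam + 4 / M') * (∫ t in Set.Ioi (0:ℝ), wz κ T t * AD n Rs J I (k - 1) u t) +
      1 / (2 * lam) * (∑ i ∈ range J, ∫ t in Set.Ioi (0:ℝ), om κ (κ / T) t *
        ((‖zz I t i‖ / RR Rs i) ^ (2 * RR Rs i) * AD n Rs J I k u t)) +
      1 / (2 * lam * B' ^ 2) * (∫ t in Set.Ioi (0:ℝ), om κ (κ / T) t * ((xx I J t - u) ^ 2 * AD n Rs J I k u t)) +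
      16 * c' * (∫ t in Set.Ioi (0:ℝ), om κ (κ / T) t * AD n Rs J I k u t) +
      1 / (2 * lam) * ∫ t in Set.Ioi (0:ℝ) ∩ (E ∩ {t | gd Rs J I t}), om κ (κ / T) t * AD n Rs J I k u t

/-! ### JOB BES: Bessel's inequality for the localising factors -/

/-- the shifted exponents -/
def kj (k₀ σ V : ℝ) (j : ℕ) : ℝ := k₀ + σ * (Real.pi * j / V)

def P_BES : Prop := ∃ C : ℝ, 0 < C ∧ ∀ (n Rs J : ℕ) (I : ℕ → Finset ℕ), (∀ i, ∀ p ∈ I i, p.Prime) → 1 ≤ n → 1 ≤ Rs →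
  ∀ (κ : ℕ) (T : ℝ), 0 < (κ:ℝ) / T → ∀ E : Set ℝ, MeasurableSet E → ∀ (k₀ η σ : ℝ) (m : ℕ), (σ = 1 ∨ σ = -1) →
  0 < VV I J → 0 ≤ η → η ≤ 1 → Real.pi * m ≤ η * Real.sqrt (VV I J) → |k₀| + η / Real.sqrt (VV I J) ≤ n →
  ∑ j ∈ range m, Real.exp (-(kj k₀ σ (VV I J) j ^ 2 * VV I J)) *
      (∫ t in Set.Ioi (0:ℝ) ∩ (E ∩ {t | gd Rs J I t}),
        om κ (κ / T) t * AD n Rs J I (kj k₀ σ (VV I J) j) (kj k₀ σ (VV I J) j * VV I J) t) ≤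
    C * (Real.exp (-((k₀ + η / Real.sqrt (VV I J)) ^ 2 * VV I J)) *
        (∫ t in Set.Ioi (0:ℝ) ∩ E, om κ (κ / T) t * ‖AZ n Rs J (k₀ + η / Real.sqrt (VV I J)) (zz I t)‖ ^ 2) +
      Real.exp (-((k₀ - η / Real.sqrt (VV I J)) ^ 2 * VV I J)) *
        (∫ t in Set.Ioi (0:ℝ) ∩ E, om κ (κ / T) t * ‖AZ n Rs J (k₀ - η / Real.sqrt (VV I J)) (zz I t)‖ ^ 2))

/-! ### JOBS COEF, SUMA, MVD, GS: mean squares of Dirichlet polynomials under the tilt `|AZ|²` -/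

/-- the multiplicative majorant of the coefficients: `∏ a^v / v!` over the primes of `P`, `0` if `d` has other primes -/
def Am (P : Finset ℕ) (a : ℝ) (d : ℕ) : ℝ :=
  open Classical in
  if d ≠ 0 ∧ (∀ p : ℕ, p.Prime → p ∣ d → p ∈ P) then
    ∏ p ∈ d.primeFactors, a ^ (d.factorization p) / ((d.factorization p).factorial : ℝ) else 0

/-- the primes of all blocks -/
def PJ (J : ℕ) (I : ℕ → Finset ℕ) : Finset ℕ := (range J).biUnion I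

/-- JOB COEF -/
def P_COEF : Prop := ∀ n : ℕ, 1 ≤ n → ∃ C₀ : ℝ, 0 < C₀ ∧ ∀ (Rs : ℕ) (c e y : ℝ) (P₀ J : ℕ) (I : ℕ → Finset ℕ) (k : ℝ),
  1 ≤ Rs → Cfg c e P₀ y J I → |k| ≤ n → ∃ (D : ℕ) (a : ℕ → ℝ), 1 ≤ D ∧
    (D:ℝ) ≤ Real.exp (C₀ * (n * ((Rs:ℝ) + 1) * Real.log y)) ∧ (∀ d, |a d| ≤ Am (PJ J I) |k| d) ∧
    ∀ t : ℝ, AZ n Rs J k (zz I t) = ∑ d ∈ Icc 1 D, (a d : ℂ) * (d : ℂ) ^ (-(1 / 2 + t * Complex.I))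

/-- JOB SUMA -/
def P_SUMA : Prop := ∀ (P : Finset ℕ) (a : ℝ), (∀ p ∈ P, p.Prime) → 0 ≤ a →
  (∀ d, 0 ≤ Am P a d) ∧ (∀ u v : ℕ, Am P a (u * v) ≤ Am P a u * Am P a v) ∧
  (∀ X : ℕ, ∑ d ∈ Icc 1 X, Am P a d ^ 2 / (d : ℝ) ≤ Real.exp (a ^ 2 * ∑ p ∈ P, 1 / (p:ℝ))) ∧
  ∀ ε : ℝ, 0 ≤ ε → (∀ p ∈ P, a ≤ (p:ℝ) ^ ε) → ∀ d : ℕ, Am P a d ≤ (d:ℝ) ^ ε

/-- JOB MVD: the mean value theorem in the windows -/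
def P_MVD : Prop := ∀ᶠ T : ℝ in atTop, ∀ κ : ℕ, Rng T κ → ∀ X : ℕ, (X:ℝ) ≤ T ^ (1 / 4 : ℝ) → ∀ f : ℕ → ℂ,
  ∫ t in Set.Ioi (0:ℝ), om κ (κ / T) t * ‖∑ d ∈ Icc 1 X, f d * (d : ℂ) ^ (-(1 / 2 + t * Complex.I))‖ ^ 2 ≤
    ∑ d ∈ Icc 1 X, ‖f d‖ ^ 2 / (d : ℝ) + T ^ (-(1 / 2) : ℝ) * (∑ d ∈ Icc 1 X, ‖f d‖) ^ 2

/-- JOB GS: a sum with greatest common divisors -/
def P_GS : Prop := ∀ τ ε : ℝ, 0 < τ → 0 ≤ ε → ε ≤ τ / 2 → ∃ C : ℝ, 0 < C ∧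
  ∀ (A b : ℕ → ℝ) (S : ℝ) (M0 D N : ℕ), 1 ≤ M0 → (∀ d, 0 ≤ A d) → (∀ u v, A (u * v) ≤ A u * A v) →
    (∀ d, A d ≤ (d:ℝ) ^ ε) → (∀ X : ℕ, ∑ d ∈ Icc 1 X, A d ^ 2 / (d : ℝ) ≤ S) → (∀ m, 0 ≤ b m) →
    (∀ m : ℕ, 1 ≤ m → b m ≤ (m:ℝ) ^ (-τ)) → (∀ m ≤ M0, b m = 0) →
    ∑ q ∈ Icc 1 (D * N), (∑ x ∈ (Icc 1 D ×ˢ Icc 1 N).filter (fun x => x.1 * x.2 = q), A x.1 * b x.2) ^ 2 / (q : ℝ) ≤
      C * (M0:ℝ) ^ (-(τ / 2)) * S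

/-- the result of these jobs (assembly by helper286) -/
def P_DIRAZ : Prop := ∀ (n : ℕ) (σ1 : ℝ), 1 ≤ n → 1 / 2 < σ1 → ∃ (P₀ : ℕ) (C δ η : ℝ), 0 < C ∧ 0 < δ ∧ 0 < η ∧
  ∀ Rs : ℕ, 1 ≤ Rs → ∀ᶠ T : ℝ in atTop, ∀ κ : ℕ, Rng T κ → ∀ (c y : ℝ) (J : ℕ) (I : ℕ → Finset ℕ),
    Cfg c 1 P₀ y J I → n * ((Rs:ℝ) + 1) * Real.log y ≤ η * Real.log T → ∀ k : ℝ, |k| ≤ n →
    ∀ N : ℕ, (N:ℝ) ≤ T ^ (1 / 10 : ℝ) → ∀ M0 : ℕ, 1 ≤ M0 → ∀ a : ℕ → ℂ, (∀ m, ‖a m‖ ≤ 1) → (∀ m ≤ M0, a m = 0) →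
    ∀ s : ℂ, σ1 ≤ s.re →
      ∫ t in Set.Ioi (0:ℝ), om κ (κ / T) t * (‖AZ n Rs J k (zz I t)‖ ^ 2 *
          ‖∑ m ∈ Icc 1 N, a m * (m : ℂ) ^ (-(s + t * Complex.I))‖ ^ 2) ≤
        C * ((M0:ℝ) ^ (-δ) * Real.exp (k ^ 2 * VV I J)) + T ^ (-(1 / 8) : ℝ)

/-! ### JOB BADW: the exceptional shifts under the tilt -/

def P_BADW : Prop := ∀ (n : ℕ) (a b B θ : ℝ), 1 ≤ n → 1 / 2 < a → a ≤ b → b < 1 → 0 < B → 0 < θ →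
  ∃ (P₀ : ℕ) (C δ η : ℝ), 0 < C ∧ 0 < δ ∧ 0 < η ∧ ∀ M : ℕ, 1 ≤ M → ∀ Rs : ℕ, 1 ≤ Rs → ∀ᶠ T : ℝ in atTop,
  ∃ E : Set ℝ, MeasurableSet E ∧ (∀ t, Bad M a b B θ t → t ∈ E) ∧ ∀ κ : ℕ, Rng T κ →
    ∀ (c y : ℝ) (J : ℕ) (I : ℕ → Finset ℕ), Cfg c 1 P₀ y J I → n * ((Rs:ℝ) + 1) * Real.log y ≤ η * Real.log T →
    ∀ k : ℝ, |k| ≤ n → ∫ t in Set.Ioi (0:ℝ) ∩ E, om κ (κ / T) t * ‖AZ n Rs J k (zz I t)‖ ^ 2 ≤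
      C * (M:ℝ) ^ (-δ) * Real.exp (k ^ 2 * VV I J)

/-! ### JOB GM: the targets on the torus -/

def P_GM : Prop := ∀ (K : Set ℂ) (f : ℂ → ℂ) (ε : ℝ), IsCompact K → (∀ z ∈ K, 1 / 2 < z.re ∧ z.re < 1) →
  Pool.Agent.Y834.UT.Tgt K f → 0 < ε → ∃ (a b B θ d : ℝ) (M1 : ℕ), 1 / 2 < a ∧ a ≤ b ∧ b < 1 ∧ 0 < B ∧ 0 < θ ∧
    0 < d ∧ ∀ M : ℕ, M1 ≤ M → ∃ g : C(UnitAddTorus (Fin (kk M)), ℝ), (∀ x, 0 ≤ g x) ∧ (∀ x, g x ≤ 1) ∧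
      d ≤ ∫ x, g x ∂(haarT (kk M)) ∧
      ∀ t, 0 < g (tP M t) → t ∈ Pool.Agent.Y834.UT.SS ε K f ∨ Bad M a b B θ t

def P_PFL : Prop := ∃ C : ℝ, 0 < C ∧ ∀ M : ℕ, 3 ≤ M → ∀ g : C(UnitAddTorus (Fin (kk M)), ℝ), (∀ x, 0 ≤ g x) →
  (∀ x, g x ≤ 1) → ∃ h : C(UnitAddTorus (Fin (kk M)), ℂ), (∀ x, ‖h x‖ ≤ 1) ∧ (∀ x, g x = 0 → h x = 0) ∧
    (mF1 M h).im = 0 ∧ (∫ x, g x ∂(haarT (kk M))) ^ 2 ≤ C * Real.log M * (mF1 M h).re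

/-! ### JOB RAREM: zeros to the right of the critical line -/

def P_RAREM : Prop := ∀ K : Set ℂ, IsCompact K → (∀ z ∈ K, 1 / 2 < z.re ∧ z.re < 1) →
  ∀ z₀ ∈ interior (Pool.Agent.Y834.UT.hull K), riemannZeta z₀ = 0 → ∀ β : ℝ, 0 ≤ β → β < 4 →
  ∃ ε δ : ℝ, 0 < ε ∧ 0 < δ ∧ ∀ᶠ T : ℝ in atTop,
    ∫ t in Pool.Agent.Y834.UT.SS ε K riemannZeta ∩ Set.Icc 0 T, ‖riemannZeta (1 / 2 + t * Complex.I)‖ ^ β ≤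
      T ^ (1 - δ)

/-! ### assembly (helper286) -/

/-- the set in which the values of zeta are taken: `|log |ζ| - k L| ≤ η √L`, `|ζ|^(2k) ≤ exp (2 k² L)` -/
def Rk (L k η : ℝ) : Set ℝ := {t | Xz t ^ (2 * k) ≤ Real.exp (2 * k ^ 2 * L) ∧
  Real.exp (k * L - η * Real.sqrt L) ≤ Xz t ∧ Xz t ≤ Real.exp (k * L + η * Real.sqrt L)}

/-- the windows -/
def P_CW : Prop := ∀ (K : Set ℂ) (f : ℂ → ℂ) (ε : ℝ), IsCompact K → (∀ z ∈ K, 1 / 2 < z.re ∧ z.re < 1) →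
  Pool.Agent.Y834.UT.Tgt K f → 0 < ε → ∀ B η : ℝ, 0 ≤ B → 0 < η → ∃ c : ℝ, 0 < c ∧ ∀ᶠ T : ℝ in atTop,
  ∀ κ : ℕ, Rng T κ → ∀ k : ℝ, |k| ≤ B →
    c * Real.exp (k ^ 2 * Real.log (Real.log T)) ≤
      ∫ t in Set.Ioi (0:ℝ) ∩ (Pool.Agent.Y834.UT.SS ε K f ∩ Rk (Real.log (Real.log T)) k η),
        om κ (κ / T) t * Xz t ^ (2 * k)

end

end Pool.Agent.Q286.MC
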