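import Pool.Agent.Q286.MC.Cw
import Pool.Agent.TH959.LK_SH
import Pool.Agent.TH883.LM_SHM
import Pool.Agent.TH806.LK.Main

/-!
Project MC: from the windows to short intervals.
-/

set_option autoImplicit false

namespace Pool.Agent.Q286.MC

open Finset Filter Topology MeasureTheory Complex MonoidAlgebra
open Pool.Agent.W184.NZ
open Pool.Agent.TH806 Pool.Agent.TH806.LK
open Pool.Agent.H306R2.SM (om cl Yf)
open Pool.Agent.H262R4.TM (Rng Ck)
open Pool.Agent.Q286.UZ Pool.Agent.Q286.SB ZU TH803TW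

noncomputable section

lemma zeta_shift_cont {z : ℂ} (hz : z.re < 1) : Continuous fun t : ℝ => riemannZeta (z + t * Complex.I) := by
  rw [continuous_iff_continuousAt]
  intro t
  have h1 : z + t * Complex.I ≠ 1 := by
    intro h
    have h2 := congrArg Complex.re h
    simp at h2
    linarith
  have h2 : ContinuousAt (fun t : ℝ => z + t * Complex.I) t := by fun_prop
  exact ContinuousAt.comp (f := fun t : ℝ => z + t * Complex.I) (differentiableAt_riemannZeta h1).continuousAt h2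

/-- a continuous cut-off between two classes -/
lemma cutoff {K : Set ℂ} (hK : IsCompact K) (hKs : ∀ z ∈ K, 1 / 2 < z.re ∧ z.re < 1) (f : ℂ → ℂ) {ε : ℝ}
    (hε : 0 < ε) : ∃ φ : ℝ → ℝ, Continuous φ ∧ (∀ t, 0 ≤ φ t ∧ φ t ≤ 1) ∧
      (∀ t ∈ Pool.Agent.Y834.UT.SS (ε / 2) K f, φ t = 1) ∧ ∀ t, t ∉ Pool.Agent.Y834.UT.SS ε K f → φ t = 0 := by
  have hcl : IsClosed {t : ℝ | ∀ z ∈ K, ‖riemannZeta (z + t * Complex.I) - f z‖ ≤ ε / 2} := by
    have e : {t : ℝ | ∀ z ∈ K, ‖riemannZeta (z + t * Complex.I) - f z‖ ≤ ε / 2} =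
        ⋂ z ∈ K, {t : ℝ | ‖riemannZeta (z + t * Complex.I) - f z‖ ≤ ε / 2} := by
      ext t; simp
    rw [e]
    refine isClosed_biInter fun z hz => ?_
    exact isClosed_le ((zeta_shift_cont (hKs z hz).2).sub continuous_const).norm continuous_const
  have hop := SS_open hK (fun z hz => (hKs z hz).2) f ε
  obtain ⟨φ, h1, h2, h3⟩ := exists_continuous_zero_one_of_isClosed hop.isClosed_compl hcl (by
    rw [Set.disjoint_left]
    intro t ht1 ht2
    exact ht1 ⟨ε / 2, by linarith, ht2⟩)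
  refine ⟨φ, φ.continuous, fun t => ⟨(h3 t).1, (h3 t).2⟩, fun t ht => ?_, fun t ht => h1 ht⟩
  obtain ⟨δ, hδ, h⟩ := ht
  exact h2 (fun z hz => (h z hz).trans hδ.le)

/-- `log log` varies slowly -/
lemma ll_var : ∀ᶠ T : ℝ in atTop, ∀ x ∈ Set.Icc (T / 2) (4 * T),
    |Real.log (Real.log x) - Real.log (Real.log T)| ≤ 1 / (1 + Real.log (Real.log T)) := by
  have h1 := (Real.isLittleO_log_id_atTop.comp_tendsto Real.tendsto_log_atTop).def
    (show (0:ℝ) < 1 / 16 by norm_num)
  filter_upwards [h1, Real.tendsto_log_atTop.eventually_ge_atTop 64, eventually_ge_atTop (64:ℝ),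
    (Real.tendsto_log_atTop.comp Real.tendsto_log_atTop).eventually_ge_atTop 1] with T h1 hL hT hl x hx
  simp only [Function.comp, id, Real.norm_eq_abs] at h1 hl
  rw [abs_of_nonneg (by linarith), abs_of_nonneg (by linarith)] at h1
  have hT0 : 0 < T := by linarith
  have hx0 : 0 < x := lt_of_lt_of_le (by linarith) hx.1
  have hl4 : Real.log 4 ≤ 2 := by
    have h := Real.log_two_lt_d9
    have e : Real.log 4 = 2 * Real.log 2 := by
      rw [show (4:ℝ) = 2 ^ 2 by norm_num, Real.log_pow]; norm_num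
    rw [e]; linarith
  have hl2 : Real.log 2 ≤ 2 := by have h := Real.log_two_lt_d9; linarith
  have a1 : Real.log x ≤ Real.log T + 2 := by
    have := Real.log_le_log hx0 hx.2
    rw [Real.log_mul (by norm_num) hT0.ne'] at this
    linarith
  have a2 : Real.log T - 2 ≤ Real.log x := by
    have := Real.log_le_log (by linarith) hx.1
    rw [Real.log_div hT0.ne' (by norm_num)] at this
    linarith
  set L := Real.log T with hLd
  have hL0 : 0 < L := by linarith
  have hlx0 : 0 < Real.log x := by linarith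
  have b1 : Real.log (Real.log x) - Real.log L ≤ 2 / L := by
    rw [← Real.log_div hlx0.ne' hL0.ne']
    have h := Real.log_le_sub_one_of_pos (show 0 < Real.log x / L by positivity)
    have e : Real.log x / L - 1 = (Real.log x - L) / L := by field_simp
    rw [e] at h
    refine h.trans ?_
    gcongr
    linarith
  have b2 : Real.log L - Real.log (Real.log x) ≤ 4 / L := by
    rw [← Real.log_div hL0.ne' hlx0.ne']
    have h := Real.log_le_sub_one_of_pos (show 0 < L / Real.log x by positivity)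
    have e : L / Real.log x - 1 = (L - Real.log x) / Real.log x := by field_simp
    rw [e] at h
    refine h.trans ?_
    rw [div_le_div_iff₀ hlx0 hL0]
    nlinarith
  have b3 : 4 / L ≤ 1 / (1 + Real.log L) := by
    rw [div_le_div_iff₀ hL0 (by linarith)]
    linarith
  have b4 : 2 / L ≤ 4 / L := by gcongr; norm_num
  rw [abs_le]
  constructor <;> linarith

lemma ev_half {p : ℝ → Prop} (h : ∀ᶠ x : ℝ in atTop, p x) : ∀ᶠ T : ℝ in atTop, ∀ x : ℝ, T / 2 ≤ x → p x := by
  obtain ⟨x0, h⟩ := eventually_atTop.1 h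
  filter_upwards [eventually_ge_atTop (2 * x0)] with T hT x hx
  exact h x (by linarith)

/-- the size of the weights -/
lemma w_small (c B : ℝ) (hc : 0 < c) : ∀ᶠ T : ℝ in atTop, ∀ q : ℝ, 0 ≤ q → q ≤ B ^ 2 →
    1 / Real.log T ^ (B ^ 2 + 1) ≤ c * Real.exp (-(q * Real.log (Real.log T))) := by
  filter_upwards [Real.tendsto_log_atTop.eventually_ge_atTop (1 / c), Real.tendsto_log_atTop.eventually_ge_atTop 1]
    with T hT h1 q hq hqB
  set L := Real.log T with hL
  have hL0 : 0 < L := by linarith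
  have hl0 : 0 ≤ Real.log L := Real.log_nonneg h1
  have e1 : L ^ (B ^ 2 + 1) = Real.exp (B ^ 2 * Real.log L) * L := by
    rw [Real.rpow_add hL0, Real.rpow_one, Real.rpow_def_of_pos hL0]
    congr 2; ring
  rw [e1, div_le_iff₀ (by positivity)]
  have h2 : Real.exp (-(B ^ 2 * Real.log L)) ≤ Real.exp (-(q * Real.log L)) := Real.exp_le_exp.mpr (by nlinarith)
  have h3 : 1 ≤ c * L := by
    rw [div_le_iff₀ hc] at hT; linarith
  calc (1:ℝ) ≤ c * L := h3
    _ = c * Real.exp (-(B ^ 2 * Real.log L)) * (Real.exp (B ^ 2 * Real.log L) * L) := by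
        rw [Real.exp_neg]; field_simp
    _ ≤ c * Real.exp (-(q * Real.log L)) * (Real.exp (B ^ 2 * Real.log L) * L) := by gcongr

/-- large deviations inside the classes -/
def P_LD : Prop := ∀ (K : Set ℂ) (f : ℂ → ℂ) (ε : ℝ), IsCompact K → (∀ z ∈ K, 1 / 2 < z.re ∧ z.re < 1) →
  Pool.Agent.Y834.UT.Tgt K f → 0 < ε → ∀ B η : ℝ, 0 ≤ B → 0 < η → ∃ c : ℝ, 0 < c ∧ ∀ α : ℝ, 0 ≤ α → α < 1 →
  ∀ᶠ T : ℝ in atTop, ∀ H : ℝ, T / Real.log T ^ α ≤ H → H ≤ T → ∀ v : ℝ, |v| ≤ B * Real.log (Real.log T) →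
    c * H * Real.exp (-(v ^ 2 / Real.log (Real.log T))) ≤
      volume.real {t ∈ Pool.Agent.Y834.UT.SS ε K f ∩ Set.Icc T (T + H) |
        Real.exp (v - η * Real.sqrt (Real.log (Real.log T))) ≤ Xz t ∧
        Xz t ≤ Real.exp (v + η * Real.sqrt (Real.log (Real.log T)))}

theorem t_LD (hW : P_CW) : P_LD := by
  intro K f ε hK hKs hT hε B η hB hη
  obtain ⟨c, hc, hW⟩ := hW K f ε hK hKs hT hε (B + 1) (η / 2) (by linarith) (by positivity)
  set c₁ : ℝ := c * Real.exp (-(2 * B ^ 2)) with hc₁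
  have hc₁0 : 0 < c₁ := by positivity
  refine ⟨c₁ / 2, by positivity, fun α hα0 hα1 => ?_⟩
  obtain ⟨κ, hS⟩ := Pool.Agent.TH883.LM_SHM.t_SHM α (B ^ 2 + 1) hα0 hα1 (by positivity)
  filter_upwards [hS, ev_half hW, ll_var, w_small c₁ B hc₁0, eventually_gt_atTop (0:ℝ),
    Real.tendsto_log_atTop.eventually_ge_atTop 1,
    (Real.tendsto_log_atTop.comp Real.tendsto_log_atTop).eventually_ge_atTop (2 * B + 2)] with
    T hS hW hvar hws hT0 hL1 hl H hH1 hH2 v hv
  simp only [Function.comp] at hl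
  obtain ⟨hR, hS⟩ := hS
  set l := Real.log (Real.log T) with hld
  have hl0 : 0 < l := by linarith
  set S : Set ℝ := Pool.Agent.Y834.UT.SS ε K f ∩ {t | Real.exp (v - η * Real.sqrt l) ≤ Xz t ∧
        Xz t ≤ Real.exp (v + η * Real.sqrt l)} with hSd
  have mS : MeasurableSet S := (SS_open hK (fun z hz => (hKs z hz).2) f ε).measurableSet.inter
    ((measurableSet_le measurable_const Xz_cont.measurable).inter
      (measurableSet_le Xz_cont.measurable measurable_const))
  have hv2 : v ^ 2 ≤ (B * l) ^ 2 := by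
    rw [← sq_abs v]; exact pow_le_pow_left₀ (abs_nonneg _) hv 2
  set w : ℝ := c₁ * Real.exp (-(v ^ 2 / l)) with hw
  have hwlow : 1 / Real.log T ^ (B ^ 2 + 1) ≤ w := by
    have h1 := hws (v ^ 2 / l ^ 2) (by positivity) (by
      rw [div_le_iff₀ (by positivity)]; nlinarith)
    have e1 : v ^ 2 / l ^ 2 * l = v ^ 2 / l := by field_simp
    rw [e1] at h1
    exact h1
  have hwin : ∀ x ∈ Set.Icc (T / 2) (4 * T), w ≤ ∫ t in Set.Ioi (0:ℝ) ∩ S, om (κ T) ((κ T : ℝ) / x) t := by
    intro x hx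
    have hx0 : 0 < x := lt_of_lt_of_le (by linarith) hx.1
    have hva := abs_le.mp (hvar x hx)
    set lx := Real.log (Real.log x) with hlx
    have hin : 1 / (1 + l) ≤ 1 := by
      rw [div_le_one (by linarith)]; linarith
    have hlx1 : l - 1 ≤ lx := by linarith [hva.1]
    have hlx2 : lx ≤ l + 1 := by linarith [hva.2]
    have hlx0 : 0 < lx := by linarith
    have hk : |v / lx| ≤ B + 1 := by
      rw [abs_div, abs_of_pos hlx0, div_le_iff₀ hlx0]
      nlinarith
    have h1 := hW x hx.1 (κ T) (hR x hx) (v / lx) hk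
    rw [← hlx] at h1
    have hκ := (hR x hx).1
    have hlogx : 0 < Real.log x := by
      by_contra h
      push Not at h
      have h5 : lx ≤ 0 ∨ 0 < lx := le_or_gt _ _
      -- `log x ≤ 0` contradicts `x ≥ T / 2`
      have h6 : Real.log T - 2 ≤ Real.log x := by
        have := Real.log_le_log (by linarith) hx.1
        rw [Real.log_div hT0.ne' (by norm_num)] at this
        have h7 := Real.log_two_lt_d9
        linarith
      have h8 : Real.exp (2 * B + 2) ≤ Real.log T := by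
        rw [← Real.le_log_iff_exp_le (by linarith)]; exact hl
      have h9 : (2 * B + 2) + 1 ≤ Real.exp (2 * B + 2) := Real.add_one_le_exp _
      linarith
    have hκ0 : (0:ℝ) < κ T := by
      have : 0 < Real.log x ^ 2 := by positivity
      linarith
    have hδ : 0 < (κ T : ℝ) / x := by positivity
    set k := v / lx with hk'
    have hkl : k * lx = v := by rw [hk']; field_simp
    have mR : MeasurableSet (Pool.Agent.Y834.UT.SS ε K f ∩ Rk lx k (η / 2)) :=
      (SS_open hK (fun z hz => (hKs z hz).2) f ε).measurableSet.inter (Rk_meas _ _ _)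
    have hsub : Pool.Agent.Y834.UT.SS ε K f ∩ Rk lx k (η / 2) ⊆ S := by
      rintro t ⟨ht1, _, ht2, ht3⟩
      have hsq : Real.sqrt lx ≤ 2 * Real.sqrt l := by
        rw [Real.sqrt_le_left (by positivity), mul_pow, Real.sq_sqrt hl0.le]; linarith
      refine ⟨ht1, le_trans ?_ ht2, ht3.trans ?_⟩
      · apply Real.exp_le_exp.mpr
        rw [hkl]; nlinarith
      · apply Real.exp_le_exp.mpr
        rw [hkl]; nlinarith
    have i1 : IntegrableOn (fun t => om (κ T) ((κ T : ℝ) / x) t)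
        (Set.Ioi (0:ℝ) ∩ (Pool.Agent.Y834.UT.SS ε K f ∩ Rk lx k (η / 2))) :=
      (om_int0 _ hδ).mono_set Set.inter_subset_left
    have h2 : ∫ t in Set.Ioi (0:ℝ) ∩ (Pool.Agent.Y834.UT.SS ε K f ∩ Rk lx k (η / 2)),
        om (κ T) ((κ T : ℝ) / x) t * Xz t ^ (2 * k) ≤ Real.exp (2 * k ^ 2 * lx) *
        ∫ t in Set.Ioi (0:ℝ) ∩ (Pool.Agent.Y834.UT.SS ε K f ∩ Rk lx k (η / 2)), om (κ T) ((κ T : ℝ) / x) t := by
      rw [← integral_const_mul]
      refine setIntegral_mono_on (Xz_pow_int hδ mR fun t ht => ht.2.1) (i1.const_mul _)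
        (measurableSet_Ioi.inter mR) fun t ht => ?_
      rw [mul_comm]
      exact mul_le_mul_of_nonneg_right ht.2.2.1 (om_nn _ hδ (le_of_lt ht.1))
    have h3 : ∫ t in Set.Ioi (0:ℝ) ∩ (Pool.Agent.Y834.UT.SS ε K f ∩ Rk lx k (η / 2)), om (κ T) ((κ T : ℝ) / x) t ≤
        ∫ t in Set.Ioi (0:ℝ) ∩ S, om (κ T) ((κ T : ℝ) / x) t := by
      refine setIntegral_mono_set ((om_int0 _ hδ).mono_set Set.inter_subset_left) ?_
        (Set.inter_subset_inter_right _ hsub).eventuallyLE
      exact (ae_restrict_iff' (measurableSet_Ioi.inter mS)).mpr (Eventually.of_forall fun t ht =>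
        om_nn _ hδ (le_of_lt ht.1))
    refine le_trans ?_ h3
    have h4 := h1.trans h2
    have h5 : c * Real.exp (-(k ^ 2 * lx)) ≤
        ∫ t in Set.Ioi (0:ℝ) ∩ (Pool.Agent.Y834.UT.SS ε K f ∩ Rk lx k (η / 2)), om (κ T) ((κ T : ℝ) / x) t := by
      have e1 : Real.exp (2 * k ^ 2 * lx) = Real.exp (k ^ 2 * lx) * Real.exp (k ^ 2 * lx) := by
        rw [← Real.exp_add]; congr 1; ring
      rw [e1, mul_assoc] at h4
      rw [Real.exp_neg, ← div_eq_mul_inv, div_le_iff₀ (Real.exp_pos _)]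
      have h6 : Real.exp (k ^ 2 * lx) * c ≤ Real.exp (k ^ 2 * lx) * (Real.exp (k ^ 2 * lx) *
          ∫ t in Set.Ioi (0:ℝ) ∩ (Pool.Agent.Y834.UT.SS ε K f ∩ Rk lx k (η / 2)),
            om (κ T) ((κ T : ℝ) / x) t) := by linarith
      have h7 := le_of_mul_le_mul_left h6 (Real.exp_pos _)
      linarith
    refine le_trans ?_ h5
    rw [hw, hc₁, mul_assoc, ← Real.exp_add]
    refine mul_le_mul_of_nonneg_left (Real.exp_le_exp.mpr ?_) hc.le
    have e2 : k ^ 2 * lx = v ^ 2 / lx := by rw [hk']; field_simp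
    rw [e2]
    have e3 : v ^ 2 / lx - v ^ 2 / l = v ^ 2 * (l - lx) / (lx * l) := by field_simp
    have e4 : v ^ 2 * (l - lx) / (lx * l) ≤ 2 * B ^ 2 := by
      rw [div_le_iff₀ (by positivity)]
      have e5 : (1 + l) * (l - lx) ≤ 1 := by
        have h := hva.1
        have : l - lx ≤ 1 / (1 + l) := by linarith
        rwa [le_div_iff₀ (by linarith), mul_comm] at this
      have e6 : v ^ 2 * (l - lx) ≤ B ^ 2 * l ^ 2 * (1 / (1 + l)) := by
        rcases le_or_gt 0 (l - lx) with h | h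
        · have : l - lx ≤ 1 / (1 + l) := by linarith [hva.1]
          calc v ^ 2 * (l - lx) ≤ (B * l) ^ 2 * (1 / (1 + l)) := by gcongr
            _ = _ := by ring
        · have h1 : v ^ 2 * (l - lx) ≤ 0 := mul_nonpos_of_nonneg_of_nonpos (sq_nonneg _) h.le
          have h2 : 0 ≤ B ^ 2 * l ^ 2 * (1 / (1 + l)) := by positivity
          linarith
      have e7 : B ^ 2 * l ^ 2 * (1 / (1 + l)) ≤ B ^ 2 * l := by
        rw [mul_one_div, div_le_iff₀ (by linarith)]
        nlinarith [mul_nonneg (sq_nonneg B) hl0.le]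
      have e8 : B ^ 2 * l ≤ 2 * B ^ 2 * (lx * l) := by
        have : 1 ≤ 2 * lx := by linarith
        nlinarith [mul_nonneg (sq_nonneg B) hl0.le]
      linarith
    linarith
  have hfin := (hS H hH1 hH2).1 S mS w hwlow hwin
  have eS : {t ∈ Pool.Agent.Y834.UT.SS ε K f ∩ Set.Icc T (T + H) |
        Real.exp (v - η * Real.sqrt l) ≤ Xz t ∧ Xz t ≤ Real.exp (v + η * Real.sqrt l)} =
      Set.Icc T (T + H) ∩ S := by
    ext t
    constructor
    · rintro ⟨⟨h1, h2⟩, h3⟩
      exact ⟨h2, h1, h3⟩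
    · rintro ⟨h2, h1, h3⟩
      exact ⟨⟨h1, h2⟩, h3⟩
  rw [eS]
  refine le_trans (le_of_eq ?_) hfin
  rw [hw]; ring

end

end Pool.Agent.Q286.MC
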