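import Pool.Agent.Q286.MC.Cw
import Pool.Agent.TH806.LK.Fin

/-!
Project MC: most of the points `u_j` are good.
-/

set_option autoImplicit false

namespace Pool.Agent.Q286.MC

open Finset Filter Topology MeasureTheory Complex MonoidAlgebra
open Pool.Agent.W184.NZ
open Pool.Agent.TH806 Pool.Agent.TH806.LK
open Pool.Agent.H306R2.SM (om cl Yf)
open Pool.Agent.H262R4.TM (Rng Ck)
open Pool.Agent.Q286.UZ Pool.Agent.Q286.SB ZU TH803TW

noncomputable section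

lemma logpow (C : ℝ) {δ : ℝ} (hδ : 0 < δ) : ∀ᶠ M : ℕ in atTop, C * Real.log M ^ 4 ≤ (M:ℝ) ^ δ := by
  have h1 := (isLittleO_log_rpow_rpow_atTop (4 : ℝ) hδ).def (show (0:ℝ) < 1 / (|C| + 1) by positivity)
  filter_upwards [tendsto_natCast_atTop_atTop.eventually h1, eventually_ge_atTop 1] with M hM hM1
  have hM1r : (1:ℝ) ≤ M := by exact_mod_cast hM1
  have hl : 0 ≤ Real.log M := Real.log_nonneg hM1r
  have hC : 0 < |C| + 1 := by positivity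
  rw [Real.norm_of_nonneg (Real.rpow_nonneg hl _), Real.norm_of_nonneg (by positivity), one_div, ← div_eq_inv_mul,
    le_div_iff₀ hC] at hM
  have e1 : Real.log M ^ (4:ℝ) = Real.log M ^ 4 := by
    rw [← Real.rpow_natCast]; norm_num
  rw [e1] at hM
  have h2 : 0 ≤ Real.log M ^ 4 := by positivity
  have h3 := le_abs_self C
  nlinarith

/-- the arithmetic for one point -/
lemma onej {c₁ L₀ lam M' C1 C2 C3 C4 Λ W G X B' c' E b τ R LE re κ₀ : ℝ} (hc₁ : 0 < c₁) (hL₀ : 0 < L₀) (hC1 : 0 < C1)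
    (hC4 : 0 < C4) (hΛ : 0 < Λ) (hW : 0 < W) (hlam : lam = c₁ * L₀ / (32 * C4 * Λ))
    (hM' : M' = 128 * (C4 * Λ) / (c₁ * L₀)) (hc' : c' = c₁ * L₀ / (512 * C1)) (hτ : τ = lam * (c₁ * L₀) / 16)
    (hκ₀ : κ₀ = c₁ * L₀ / (8 * (1 + Λ))) (hLΛ : LE ≤ Λ) (hre : L₀ ≤ re)
    (h2 : 1 / (2 * lam * B' ^ 2) * C2 ≤ c₁ * L₀ / 32) (h3 : 1 / (2 * lam) * (2 * (C3 * E)) ≤ c₁ * L₀ / 32)
    (hb : b ≤ τ * W)
    (hlow : (c₁ * re - κ₀ * (1 + LE)) * W ≤ R)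
    (hkey : R ≤ G * X + (lam + 4 / M') * (C4 * (Λ * W)) + 1 / (2 * lam) * (2 * (C3 * E) * W) +
      1 / (2 * lam * B' ^ 2) * (C2 * W) + 16 * c' * (C1 * W) + 1 / (2 * lam) * b) :
    c₁ * L₀ / 2 * W ≤ G * X := by
  have hlam0 : 0 < lam := by rw [hlam]; positivity
  have e1 : (lam + 4 / M') * (C4 * (Λ * W)) = c₁ * L₀ / 16 * W := by
    rw [hlam, hM']; field_simp; ring
  have e2 : 16 * c' * (C1 * W) = c₁ * L₀ / 32 * W := by
    rw [hc']; field_simp; ring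
  have e3 : 1 / (2 * lam) * (2 * (C3 * E) * W) ≤ c₁ * L₀ / 32 * W := by
    have := mul_le_mul_of_nonneg_right h3 hW.le
    linarith
  have e4 : 1 / (2 * lam * B' ^ 2) * (C2 * W) ≤ c₁ * L₀ / 32 * W := by
    have := mul_le_mul_of_nonneg_right h2 hW.le
    linarith
  have e5 : 1 / (2 * lam) * b ≤ c₁ * L₀ / 32 * W := by
    calc 1 / (2 * lam) * b ≤ 1 / (2 * lam) * (τ * W) := mul_le_mul_of_nonneg_left hb (by positivity)
      _ = c₁ * L₀ / 32 * W := by rw [hτ]; field_simp; ring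
  have e6 : κ₀ * (1 + LE) ≤ c₁ * L₀ / 8 := by
    rw [hκ₀, div_mul_eq_mul_div, div_le_iff₀ (by positivity)]
    have : 0 ≤ c₁ * L₀ := by positivity
    nlinarith
  have e7 : (c₁ * L₀ - c₁ * L₀ / 8) * W ≤ (c₁ * re - κ₀ * (1 + LE)) * W := by
    refine mul_le_mul_of_nonneg_right ?_ hW.le
    nlinarith
  rw [e1, e2] at hkey
  have hp : 0 < c₁ * L₀ * W := by positivity
  nlinarith

/-- counting the exceptional points -/
lemma countj {m : ℕ} {b w : ℕ → ℝ} {τ S q : ℝ} (hb : ∀ j, 0 ≤ b j) (hw : ∀ j, 0 < w j) (hτ : 0 < τ) (hq : 0 < q)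
    (hsum : ∑ j ∈ range m, w j * b j ≤ S)
    (hS : S ≤ τ * q * (m / 4)) : ∃ G ⊆ range m, 3 / 4 * (m : ℝ) ≤ (G.card : ℝ) ∧ ∀ j ∈ G, b j ≤ τ * (q / w j) := by
  classical
  refine ⟨(range m).filter (fun j => b j ≤ τ * (q / w j)), filter_subset _ _, ?_, fun j hj => (mem_filter.mp hj).2⟩
  set G := (range m).filter (fun j => b j ≤ τ * (q / w j)) with hG
  set N := (range m).filter (fun j => ¬ b j ≤ τ * (q / w j)) with hN
  have h1 : G.card + N.card = m := by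
    have := Finset.card_filter_add_card_filter_not (s := range m) (fun j => b j ≤ τ * (q / w j))
    rw [card_range] at this
    exact this
  have h2 : (N.card : ℝ) * (τ * q) ≤ S := by
    refine le_trans ?_ hsum
    calc (N.card : ℝ) * (τ * q) = ∑ j ∈ N, τ * q := by rw [sum_const, nsmul_eq_mul]
      _ ≤ ∑ j ∈ N, w j * b j := by
          refine sum_le_sum fun j hj => ?_
          have h3 := (mem_filter.mp hj).2
          push Not at h3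
          have h4 := (hw j).ne'
          calc τ * q = w j * (τ * (q / w j)) := by field_simp
            _ ≤ w j * b j := mul_le_mul_of_nonneg_left h3.le (hw j).le
      _ ≤ ∑ j ∈ range m, w j * b j :=
          sum_le_sum_of_subset_of_nonneg (filter_subset _ _) fun j _ _ => mul_nonneg (hw j).le (hb j)
  have h4 : (N.card : ℝ) ≤ m / 4 := by
    have h5 : (N.card : ℝ) * (τ * q) ≤ m / 4 * (τ * q) := by linarith
    exact le_of_mul_le_mul_right h5 (by positivity)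
  have h6 : (G.card : ℝ) + N.card = m := by exact_mod_cast h1
  linarith

lemma cnt_num {C5 C6 Mδ η τ τ₀ ℓ MM V q : ℝ} {m : ℕ} (hℓ : 0 < ℓ) (hη : 0 < η) (hτ₀ : 0 < τ₀) (hMδ : 0 ≤ Mδ)
    (hττ : τ = τ₀ / ℓ ^ 4) (hinv : MM * Mδ = 1) (hM4 : 128 * C5 * C6 / (η * τ₀) * ℓ ^ 4 ≤ MM) (hq : 0 < q)
    (hqV : 1 / 2 ≤ Real.sqrt V * q) (hm2 : η * Real.sqrt V ≤ 8 * m) :
    2 * C5 * C6 * Mδ ≤ τ * q * (m / 4) := by
  have hτ : 0 < τ := by rw [hττ]; positivity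
  have e1 : 128 * C5 * C6 * Mδ ≤ η * τ := by
    rw [div_mul_eq_mul_div, div_le_iff₀ (by positivity)] at hM4
    rw [hττ, mul_div_assoc', le_div_iff₀ (by positivity)]
    calc 128 * C5 * C6 * Mδ * ℓ ^ 4 = (128 * C5 * C6 * ℓ ^ 4) * Mδ := by ring
      _ ≤ (MM * (η * τ₀)) * Mδ := mul_le_mul_of_nonneg_right hM4 hMδ
      _ = η * τ₀ := by linear_combination (η * τ₀) * hinv
  have e3 : η * (Real.sqrt V * q) ≤ 8 * (m * q) := by
    have := mul_le_mul_of_nonneg_right hm2 hq.le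
    linarith
  have e4' := mul_le_mul_of_nonneg_left hqV hη.le
  have e4 : η / 16 ≤ m * q := by linarith
  have e5 : τ * (η / 16) ≤ τ * (m * q) := mul_le_mul_of_nonneg_left e4 hτ.le
  linarith

lemma B_num {lam c₁ L₀ C2 B' : ℝ} (hlam0 : 0 < lam) (hc : 0 < c₁ * L₀) (hC2 : 0 < C2)
    (hB' : B' = 1 + 16 * C2 / (lam * (c₁ * L₀))) :
    1 / (2 * lam * B' ^ 2) * C2 ≤ c₁ * L₀ / 32 := by
  have h0 : 0 < 16 * C2 / (lam * (c₁ * L₀)) := by positivity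
  have e1 : 16 * C2 / (lam * (c₁ * L₀)) ≤ B' ^ 2 := by rw [hB']; nlinarith
  have hB0 : 0 < B' := by rw [hB']; linarith
  rw [div_le_iff₀ (by positivity)] at e1
  rw [one_div, inv_mul_le_iff₀ (by positivity)]
  nlinarith

lemma E_num {lam c₁ L₀ C3 τ τ₀ ℓ M E : ℝ} (hlam0 : 0 < lam) (hC3 : 0 < C3) (hM : 0 < M) (hℓ : 0 < ℓ)
    (hτ₀ : 0 < τ₀) (hτ : τ = lam * (c₁ * L₀) / 16) (hττ : τ = τ₀ / ℓ ^ 4) (hM3 : 2 * C3 / τ₀ * ℓ ^ 4 ≤ M ^ (1:ℝ))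
    (hE : E ≤ 1 / M) : 1 / (2 * lam) * (2 * (C3 * E)) ≤ c₁ * L₀ / 32 := by
  have e0 : 2 * C3 ≤ M * τ := by
    rw [Real.rpow_one, div_mul_eq_mul_div, div_le_iff₀ hτ₀] at hM3
    rw [hττ, mul_div_assoc', le_div_iff₀ (by positivity)]
    linarith
  have e1 : C3 * E ≤ τ / 2 := by
    calc C3 * E ≤ C3 * (1 / M) := by gcongr
      _ = C3 / M := by ring
      _ ≤ τ / 2 := by
        rw [div_le_div_iff₀ hM two_pos]; linarith
  calc 1 / (2 * lam) * (2 * (C3 * E)) ≤ 1 / (2 * lam) * (2 * (τ / 2)) := by gcongr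
    _ = c₁ * L₀ / 32 := by rw [hτ]; field_simp; ring

lemma L_num {A₀ LM Rs ℓ η₀ : ℝ} {n : ℕ} (hη₀ : 0 < η₀) (hℓ : 0 < ℓ) (hLM0 : 0 < LM) (hLM : LM ≤ 2 * ℓ)
    (hRs0 : 0 ≤ Rs) (hRs : Rs + 1 ≤ 2 * ℓ) :
    Real.exp (A₀ + Real.log LM) / (η₀ / (n * (Rs + 1))) ≤ 4 * n * Real.exp A₀ / η₀ * ℓ ^ 2 := by
  rw [Real.exp_add, Real.exp_log hLM0]
  have hr : 0 < Rs + 1 := by linarith
  calc Real.exp A₀ * LM / (η₀ / (n * (Rs + 1))) =
        n * Real.exp A₀ / η₀ * (LM * (Rs + 1)) := by field_simp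
    _ ≤ n * Real.exp A₀ / η₀ * ((2 * ℓ) * (2 * ℓ)) := by gcongr
    _ = 4 * n * Real.exp A₀ / η₀ * ℓ ^ 2 := by ring

lemma q_num {V : ℝ} (hV1 : 1 ≤ V) : 1 / 2 ≤ Real.sqrt V * (1 + V) ^ (-(1 / 2) : ℝ) := by
  have e2 : (1 + V) ^ (-(1 / 2) : ℝ) = (Real.sqrt (1 + V))⁻¹ := by
    rw [Real.sqrt_eq_rpow, Real.rpow_neg (by linarith)]
  have e3 : Real.sqrt (1 + V) ≤ 2 * Real.sqrt V := by
    rw [Real.sqrt_le_left (by positivity), mul_pow, Real.sq_sqrt (by linarith)]; linarith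
  have e4 : 0 < Real.sqrt (1 + V) := Real.sqrt_pos.mpr (by linarith)
  rw [e2, ← div_eq_mul_inv, le_div_iff₀ e4]
  linarith

lemma k_num {k₀ σ V η B n : ℝ} {j m : ℕ} (hσ : σ = 1 ∨ σ = -1) (hk₀ : |k₀| ≤ B) (hB : B + 3 ≤ n) (hV1 : 1 ≤ V)
    (hη1 : η ≤ 1) (hm1 : Real.pi * m ≤ η * Real.sqrt V) (hj : j < m) : |kj k₀ σ V j| + 1 ≤ n := by
  have hpi := Real.pi_pos
  have hV0 : 0 < V := by linarith
  have hjmr : (j:ℝ) ≤ m := by exact_mod_cast hj.le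
  have hsV := Real.sqrt_nonneg V
  have e1 : |kj k₀ σ V j| ≤ |k₀| + Real.pi * j / V := by
    unfold kj
    refine (abs_add_le _ _).trans ?_
    rw [abs_mul]
    have : |σ| = 1 := by rcases hσ with h | h <;> rw [h] <;> norm_num
    rw [this, one_mul, abs_of_nonneg (by positivity : 0 ≤ Real.pi * (j:ℝ) / V)]
  have e2 : Real.pi * j / V ≤ 1 := by
    rw [div_le_one hV0]
    have e3 : Real.sqrt V ≤ V := by
      rw [Real.sqrt_le_left hV0.le]; nlinarith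
    nlinarith
  linarith

/-- one good point -/
lemma jpoint (hKEY : P_KEY) {n Rs J : ℕ} {I : ℕ → Finset ℕ} (hI : ∀ i, ∀ p ∈ I i, p.Prime) (hn1 : 1 ≤ n)
    (hR1 : 1 ≤ Rs) {κ : ℕ} {T : ℝ} (hδ : 0 < (κ:ℝ) / T) {E : Set ℝ} (mE : MeasurableSet E) {hf : ℝ → ℂ}
    (hhc : Continuous hf) (hh1 : ∀ t, ‖hf t‖ ≤ 1) {c₁ L₀ lam M' C1 C2 C3 C4 Λ W B' c' k u τ LE re κ₀ : ℝ}
    (hk1 : |k| + 1 ≤ n) (hlam0 : 0 < lam) (hB'0 : 0 < B') (hc'0 : 0 < c') (hM'0 : 0 < M')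
    (hc₁ : 0 < c₁) (hL₀ : 0 < L₀) (hC1 : 0 < C1)
    (hC4 : 0 < C4) (hΛ : 0 < Λ) (hW : 0 < W) (hlam : lam = c₁ * L₀ / (32 * C4 * Λ))
    (hM' : M' = 128 * (C4 * Λ) / (c₁ * L₀)) (hc' : c' = c₁ * L₀ / (512 * C1)) (hτ : τ = lam * (c₁ * L₀) / 16)
    (hκ₀ : κ₀ = c₁ * L₀ / (8 * (1 + Λ))) (hLΛ : LE ≤ Λ) (hre : L₀ ≤ re)
    (h2 : 1 / (2 * lam * B' ^ 2) * C2 ≤ c₁ * L₀ / 32)
    (h3 : 1 / (2 * lam) * (2 * (C3 * Real.exp (-(Rs:ℝ)))) ≤ c₁ * L₀ / 32)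
    (low : (c₁ * re - κ₀ * (1 + LE)) * W ≤
      (∫ t in Set.Ioi (0:ℝ), ((om κ (κ / T) t : ℝ) : ℂ) * (riemannZeta (cl t) * (hf t * BK n Rs J I k u t))).re)
    (u1 : ∫ t in Set.Ioi (0:ℝ), om κ (κ / T) t * AD n Rs J I k u t ≤ C1 * W)
    (u2 : ∫ t in Set.Ioi (0:ℝ), om κ (κ / T) t * ((xx I J t - u) ^ 2 * AD n Rs J I k u t) ≤ C2 * W)
    (u3 : ∑ i ∈ range J, ∫ t in Set.Ioi (0:ℝ), om κ (κ / T) t *
        ((‖zz I t i‖ / RR Rs i) ^ (2 * RR Rs i) * AD n Rs J I k u t) ≤ 2 * (C3 * Real.exp (-(Rs:ℝ))) * W)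
    (u4 : ∫ t in Set.Ioi (0:ℝ), wz κ T t * AD n Rs J I (k - 1) u t ≤ C4 * (Λ * W))
    (hb : ∫ t in Set.Ioi (0:ℝ) ∩ (E ∩ {t | gd Rs J I t}), om κ (κ / T) t * AD n Rs J I k u t ≤ τ * W) :
    c₁ * L₀ / 2 * W ≤ (64 * M' * Real.exp (2 * k * u + 2 * |k| * B')) *
      ∫ t in Set.Ioi (0:ℝ) ∩ (SS Rs J I u B' c' M' ∩ (Eᶜ ∩ {t | hf t ≠ 0})), om κ (κ / T) t := by
  have key := hKEY n Rs J I hI hn1 hR1 κ T hδ E hf mE hhc hh1 u k lam B' c' M' hk1 hlam0 hB'0 hc'0 hM'0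
  have a4 := mul_le_mul_of_nonneg_left u4 (show 0 ≤ lam + 4 / M' by positivity)
  have a3 := mul_le_mul_of_nonneg_left u3 (show 0 ≤ 1 / (2 * lam) by positivity)
  have a2 := mul_le_mul_of_nonneg_left u2 (show 0 ≤ 1 / (2 * lam * B' ^ 2) by positivity)
  have a1 := mul_le_mul_of_nonneg_left u1 (show 0 ≤ 16 * c' by positivity)
  refine onej (b := ∫ t in Set.Ioi (0:ℝ) ∩ (E ∩ {t | gd Rs J I t}), om κ (κ / T) t * AD n Rs J I k u t)
    (E := Real.exp (-(Rs:ℝ))) hc₁ hL₀ hC1 hC4 hΛ hW hlam hM' hc' hτ hκ₀ hLΛ hre h2 h3 hb low ?_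
  linarith

lemma jnum {c₁ L₀ M' q V k B' X W : ℝ} {n : ℕ} (hc₁ : 0 < c₁) (hL₀ : 0 < L₀) (hM' : 0 < M') (hB' : 0 < B')
    (hq : 0 < q) (hkn : |k| ≤ n) (hW : W = q * Real.exp (k ^ 2 * V))
    (h : c₁ * L₀ / 2 * W ≤ (64 * M' * Real.exp (2 * k * (k * V) + 2 * |k| * B')) * X) :
    c₁ * L₀ / (128 * M' * Real.exp (2 * n * B')) * (q * Real.exp (-(k ^ 2 * V))) ≤ X := by
  have hGpos : 0 < 64 * M' * Real.exp (2 * k * (k * V) + 2 * |k| * B') := by positivity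
  have hXlow : c₁ * L₀ / 2 * W / (64 * M' * Real.exp (2 * k * (k * V) + 2 * |k| * B')) ≤ X := by
    rw [div_le_iff₀ hGpos]; linarith
  refine le_trans ?_ hXlow
  have e6 : Real.exp (2 * k * (k * V) + 2 * |k| * B') =
      Real.exp (k ^ 2 * V) * Real.exp (k ^ 2 * V) * Real.exp (2 * |k| * B') := by
    rw [← Real.exp_add, ← Real.exp_add]; congr 1; ring
  have e7 : c₁ * L₀ / 2 * W / (64 * M' * Real.exp (2 * k * (k * V) + 2 * |k| * B')) =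
      c₁ * L₀ / (128 * M' * Real.exp (2 * |k| * B')) * (q * Real.exp (-(k ^ 2 * V))) := by
    rw [hW, e6, Real.exp_neg]
    field_simp
    ring
  rw [e7]
  have hEle : Real.exp (2 * |k| * B') ≤ Real.exp (2 * n * B') := by
    apply Real.exp_le_exp.mpr
    gcongr
  gcongr

theorem t_MID (hSET : P_SETx) (hTLB : P_TLB) (hKEY : P_KEY) (hBES : P_BES) (hBAD : P_BADW) (hGM : P_GM)
    (hPFL : P_PFL) : P_MID := by
  intro K f ε hK hKs hTg hε B η hB hη hη1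
  obtain ⟨a, b, Br, θ, d, M1, ha, hab, hb, hBr, hθ, hd, hG⟩ := hGM K f ε hK hKs hTg hε
  obtain ⟨CP, hCP, hPFL⟩ := hPFL
  set n : ℕ := ⌈B⌉₊ + 3 with hn
  have hn1 : 1 ≤ n := by omega
  have hn1R : (1:ℝ) ≤ n := by exact_mod_cast hn1
  have hBn : B + 3 ≤ n := by rw [hn]; push_cast; linarith [Nat.le_ceil B]
  obtain ⟨c₀, A₀, hc₀, hA₀, hSET⟩ := hSET
  obtain ⟨P1, C1, η1', hC1, hη1', H1⟩ := a_U13.1 n c₀ hn1 hc₀
  obtain ⟨P2, C2, η2', hC2, hη2', H2⟩ := a_U2 n c₀ hn1 hc₀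
  obtain ⟨P3, C3, η3', hC3, hη3', H3⟩ := a_U13.2 n c₀ hn1 hc₀
  obtain ⟨P4, C4, η4', hC4, hη4', H4⟩ := a_U4 n c₀ hn1 hc₀
  obtain ⟨P5, C5, δ5, η5', hC5, hδ5, hη5', H5⟩ := hBAD n a b Br θ hn1 ha hab hb hBr hθ
  obtain ⟨P6, R6, c₁, e₀, η6', hc₁, he₀, he1, hη6', H6⟩ := hTLB n c₀ hn1 hc₀
  obtain ⟨C6, hC6, hBES⟩ := hBES
  obtain ⟨P7, hSET⟩ := hSET e₀ he₀
  obtain ⟨η₀, hη₀, hη₀1, g1, g2, g3, g4, g5, g6⟩ : ∃ η₀ : ℝ, 0 < η₀ ∧ η₀ ≤ 1 ∧ η₀ ≤ η1' ∧ η₀ ≤ η2' ∧ η₀ ≤ η3' ∧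
      η₀ ≤ η4' ∧ η₀ ≤ η5' ∧ η₀ ≤ η6' := by
    refine ⟨min 1 (min η1' (min η2' (min η3' (min η4' (min η5' η6'))))), by positivity, min_le_left _ _, ?_, ?_, ?_,
      ?_, ?_, ?_⟩
    · exact (min_le_right _ _).trans (min_le_left _ _)
    · exact (min_le_right _ _).trans ((min_le_right _ _).trans (min_le_left _ _))
    · exact (min_le_right _ _).trans ((min_le_right _ _).trans ((min_le_right _ _).trans (min_le_left _ _)))
    · exact (min_le_right _ _).trans ((min_le_right _ _).trans ((min_le_right _ _).trans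
        ((min_le_right _ _).trans (min_le_left _ _))))
    · exact (min_le_right _ _).trans ((min_le_right _ _).trans ((min_le_right _ _).trans
        ((min_le_right _ _).trans ((min_le_right _ _).trans (min_le_left _ _)))))
    · exact (min_le_right _ _).trans ((min_le_right _ _).trans ((min_le_right _ _).trans
        ((min_le_right _ _).trans ((min_le_right _ _).trans (min_le_right _ _)))))
  set CΛ : ℝ := 4 * n * Real.exp A₀ / η₀ with hCΛ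
  have hCΛ0 : 0 < CΛ := by positivity
  set τ₀ : ℝ := c₁ ^ 2 * d ^ 4 / (512 * C4 * CΛ * CP ^ 2) with hτ₀
  have hτ₀0 : 0 < τ₀ := by positivity
  -- choice of `M`
  obtain ⟨M, hMb, hMl, hM3, hM4⟩ : ∃ M : ℕ, M1 + P1 + P2 + P3 + P4 + P5 + P6 + P7 + 9 ≤ M ∧ (R6:ℝ) + 2 ≤ Real.log M ∧
      2 * C3 / τ₀ * Real.log M ^ 4 ≤ (M:ℝ) ^ (1:ℝ) ∧ 128 * C5 * C6 / (η * τ₀) * Real.log M ^ 4 ≤ (M:ℝ) ^ δ5 := by
    have h1 := logpow (2 * C3 / τ₀) one_pos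
    have h2 := logpow (128 * C5 * C6 / (η * τ₀)) hδ5
    have h3 := (Real.tendsto_log_atTop.comp tendsto_natCast_atTop_atTop).eventually_ge_atTop ((R6:ℝ) + 2)
    obtain ⟨M, h⟩ := (((h1.and h2).and h3).and
      (eventually_ge_atTop (M1 + P1 + P2 + P3 + P4 + P5 + P6 + P7 + 9))).exists
    exact ⟨M, h.2, h.1.2, h.1.1.1, h.1.1.2⟩
  set ℓ : ℝ := Real.log M with hℓ
  have hM9 : (9:ℝ) ≤ M := by exact_mod_cast (by omega : 9 ≤ M)
  have hMr : (0:ℝ) < M := by linarith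
  have hℓ2 : 2 ≤ ℓ := by
    have : (0:ℝ) ≤ R6 := Nat.cast_nonneg _
    linarith
  have hℓ0 : 0 < ℓ := by linarith
  set Rs : ℕ := ⌈ℓ⌉₊ with hRs
  have hRs1 : ℓ ≤ Rs := Nat.le_ceil _
  have hRs2 : (Rs:ℝ) < ℓ + 1 := Nat.ceil_lt_add_one hℓ0.le
  have hR6 : R6 ≤ Rs := by
    have : (R6:ℝ) ≤ Rs := by linarith
    exact_mod_cast this
  have hR1 : 1 ≤ Rs := by
    have : (1:ℝ) ≤ Rs := by linarith
    exact_mod_cast this
  have hE : Real.exp (-(Rs:ℝ)) ≤ 1 / M := by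
    rw [Real.exp_neg, one_div]
    refine inv_anti₀ hMr ?_
    calc (M:ℝ) = Real.exp ℓ := (Real.exp_log hMr).symm
      _ ≤ Real.exp Rs := Real.exp_le_exp.mpr hRs1
  set L₀ : ℝ := d ^ 2 / (CP * ℓ) with hL₀
  have hL₀0 : 0 < L₀ := by positivity
  set Λ : ℝ := CΛ * ℓ ^ 2 with hΛ
  have hΛ0 : 0 < Λ := by positivity
  set lam : ℝ := c₁ * L₀ / (32 * C4 * Λ) with hlam
  have hlam0 : 0 < lam := by positivity
  set τ : ℝ := lam * (c₁ * L₀) / 16 with hτ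
  have hτ0 : 0 < τ := by positivity
  have hττ : τ = τ₀ / ℓ ^ 4 := by
    rw [hτ, hlam, hτ₀, hΛ, hL₀]; field_simp; ring
  set M' : ℝ := 128 * (C4 * Λ) / (c₁ * L₀) with hM'
  have hM'0 : 0 < M' := by positivity
  set c' : ℝ := c₁ * L₀ / (512 * C1) with hc'
  have hc'0 : 0 < c' := by positivity
  set κ₀ : ℝ := c₁ * L₀ / (8 * (1 + Λ)) with hκ₀
  have hκ₀0 : 0 < κ₀ := by positivity
  set B' : ℝ := 1 + 16 * C2 / (lam * (c₁ * L₀)) with hB'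
  have hB'1 : 1 ≤ B' := by
    have : 0 < 16 * C2 / (lam * (c₁ * L₀)) := by positivity
    linarith
  have hB'0 : 0 < B' := by linarith
  have hcB : 1 / (2 * lam * B' ^ 2) * C2 ≤ c₁ * L₀ / 32 := B_num hlam0 (by positivity) hC2 hB'
  have hcE : 1 / (2 * lam) * (2 * (C3 * Real.exp (-(Rs:ℝ)))) ≤ c₁ * L₀ / 32 :=
    E_num hlam0 hC3 hMr hℓ0 hτ₀0 hτ hττ hM3 hE
  set cc : ℝ := η₀ / (n * ((Rs:ℝ) + 1)) with hcc
  have hcc0 : 0 < cc := by positivity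
  have hcc1 : cc ≤ 1 := by
    rw [hcc, div_le_one (by positivity)]
    have : (0:ℝ) ≤ Rs := Nat.cast_nonneg _
    nlinarith
  set CV : ℝ := A₀ + Real.log (Real.log ((M + 1 : ℕ) : ℝ)) with hCV
  have hlM1 : Real.log ((M + 1 : ℕ) : ℝ) ≤ 2 * ℓ := by
    have e1 : Real.log ((M + 1 : ℕ) : ℝ) ≤ Real.log ((M:ℝ) ^ 2) := by
      refine Real.log_le_log (by positivity) ?_
      push_cast; nlinarith
    rw [Real.log_pow] at e1
    push_cast at e1 ⊢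
    exact e1
  have hlM1' : ℓ ≤ Real.log ((M + 1 : ℕ) : ℝ) := by
    refine Real.log_le_log hMr ?_
    push_cast; linarith
  have hlM10 : 0 < Real.log ((M + 1 : ℕ) : ℝ) := by linarith
  have hCV0 : 0 ≤ CV := by
    have : 0 ≤ Real.log (Real.log ((M + 1 : ℕ) : ℝ)) := Real.log_nonneg (by linarith)
    rw [hCV]; linarith
  have hΛCV : Real.exp CV / cc ≤ Λ :=
    L_num hη₀ hℓ0 hlM10 hlM1 (Nat.cast_nonneg _) (by linarith)
  set DV : ℝ := c₀ + CV + |Real.log cc| with hDV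
  have hDV0 : 0 ≤ DV := by positivity
  -- the functions on the torus
  obtain ⟨g, hg0, hg1, hgd, hgS⟩ := hG M (by omega)
  obtain ⟨h, hh1, hhg, him, hre⟩ := hPFL M (by omega) g hg0 hg1
  have hreL : L₀ ≤ (mF1 M h).re := by
    have e1 : d ^ 2 ≤ (∫ x, g x ∂(haarT (kk M))) ^ 2 := pow_le_pow_left₀ hd.le hgd 2
    have e2 := e1.trans hre
    rw [hL₀, div_le_iff₀ (by positivity)]
    linarith
  have hre0 : 0 ≤ (mF1 M h).re := hL₀0.le.trans hreL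
  set c₂ : ℝ := c₁ * L₀ / (128 * M' * Real.exp (2 * n * B')) with hc₂
  refine ⟨Rs, c₂, B', c', M', DV, by positivity, hB'0, hc'0, hM'0, hDV0, ?_⟩
  have hbig : ∀ᶠ T : ℝ in atTop, 144 ≤ Real.exp (cc * Real.log T) := by
    have h5 := Real.tendsto_log_atTop.eventually_ge_atTop (Real.log 144 / cc)
    filter_upwards [h5] with T hT
    rw [div_le_iff₀ hcc0] at hT
    rw [← Real.log_le_iff_le_exp (by norm_num)]
    linarith
  filter_upwards [H1 Rs hR1, H2 Rs hR1, H3 Rs hR1, H4 Rs hR1, H5 M (by omega) Rs hR1,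
    H6 M h hh1 him hre0 κ₀ hκ₀0 Rs hR6 hR1, hbig, eventually_gt_atTop (0:ℝ),
    Real.tendsto_log_atTop.eventually_ge_atTop 1,
    (Real.tendsto_log_atTop.comp Real.tendsto_log_atTop).eventually_ge_atTop (DV + 1)] with
    T h1T h2T h3T h4T h5T h6T hy hT0 hL1 hl1 κ hκ
  simp only [Function.comp] at hl1
  set L := Real.log T with hLd
  set l := Real.log L with hld
  have hL0 : 0 < L := by linarith
  obtain ⟨E, mE, hEB, h5T⟩ := h5T
  obtain ⟨J, I, hcfg, hV⟩ := hSET (M + 1) (by omega) (by omega) (Real.exp (cc * L)) hy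
  have hlogy : Real.log (Real.exp (cc * L)) = cc * L := Real.log_exp _
  have hlen : n * ((Rs:ℝ) + 1) * Real.log (Real.exp (cc * L)) = η₀ * L := by
    rw [hlogy, hcc]; field_simp
  have hI : ∀ i, ∀ p ∈ I i, p.Prime := fun i p hp => (hcfg.rg.pr i p hp).1
  obtain ⟨hP1, hP2⟩ := Pool.Agent.TH126.LK_PT.t_PT
  have hcont : ∀ (k u : ℝ), Continuous (fun t => AZ n Rs J k (zz I t)) ∧
      Continuous (fun t => DK n Rs J hh u (zz I t)) ∧ (∀ i, Continuous fun t => zz I t i) ∧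
      ∃ B : ℝ, ∀ t, ‖AZ n Rs J k (zz I t)‖ ≤ B ∧ ‖DK n Rs J hh u (zz I t)‖ ≤ B ∧ ∀ i < J, ‖zz I t i‖ ≤ B :=
    fun k u => hP1 n Rs J I k u hh hI (by unfold hh; fun_prop)
  have hz : ∀ i, Continuous fun t => zz I t i := (hcont 0 0).2.2.1
  have hhc : Continuous fun t => h (tP M t) := h.continuous.comp (tP_cont M)
  set A : Set ℝ := Eᶜ ∩ {t | h (tP M t) ≠ 0} with hA
  have mA : MeasurableSet A :=
    mE.compl.inter (isOpen_ne_fun hhc continuous_const).measurableSet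
  have hASS : A ⊆ Pool.Agent.Y834.UT.SS ε K f := by
    rintro t ⟨ht1, ht2⟩
    have hgt : 0 < g (tP M t) := by
      rcases (hg0 (tP M t)).lt_or_eq with h' | h'
      · exact h'
      · exact absurd (hhg _ h'.symm) ht2
    rcases hgS t hgt with h' | h'
    · exact h'
    · exact absurd (hEB t h') ht1
  set V := VV I J with hVd
  have hVup : V ≤ l + c₀ := by
    have h6 := hcfg.vv
    rw [hlogy] at h6
    have h7 : Real.log (cc * L) ≤ l := Real.log_le_log (by positivity) (by nlinarith)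
    linarith
  have hVlow : l - DV ≤ V := by
    rw [hlogy, Real.log_mul hcc0.ne' hL0.ne'] at hV
    have := neg_abs_le (Real.log cc)
    linarith
  refine ⟨J, I, A, mA, hASS, hz, ?_, ?_⟩
  · rw [abs_le]
    constructor
    · linarith
    · have := abs_nonneg (Real.log cc)
      linarith
  intro k₀ σ hk₀ hσ m hm1 hm2
  have hV1 : 1 ≤ V := by linarith
  have hV0 : 0 < V := by linarith
  have hsV : 0 < Real.sqrt V := Real.sqrt_pos.mpr hV0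
  have hsV1 : 1 ≤ Real.sqrt V := by rwa [Real.one_le_sqrt]
  have hκ0 : (0:ℝ) < κ := by
    have := hκ.1
    nlinarith
  have hδ : 0 < (κ:ℝ) / T := by positivity
  have hηV : η / Real.sqrt V ≤ 1 := by
    rw [div_le_one hsV]; linarith
  have hηV0 : 0 ≤ η / Real.sqrt V := by positivity
  have hc1 : Cfg c₀ 1 P1 (Real.exp (cc * L)) J I := hcfg.mono he1 (by omega)
  have hc2 : Cfg c₀ 1 P2 (Real.exp (cc * L)) J I := hcfg.mono he1 (by omega)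
  have hc3 : Cfg c₀ 1 P3 (Real.exp (cc * L)) J I := hcfg.mono he1 (by omega)
  have hc4 : Cfg c₀ 1 P4 (Real.exp (cc * L)) J I := hcfg.mono he1 (by omega)
  have hc5 : Cfg c₀ 1 P5 (Real.exp (cc * L)) J I := hcfg.mono he1 (by omega)
  have hc6 : Cfg c₀ e₀ P6 (Real.exp (cc * L)) J I := hcfg.mono le_rfl (by omega)
  have hpM : ∀ i, ∀ p ∈ I i, M < p := fun i p hp => hcfg.P i p hp
  have hLV : L * Real.exp (-V) ≤ Λ := by
    have h6 := lam_T (V := V) (CV := CV) hL1 hcc0 (by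
      have := hV
      rw [hlogy] at this
      rw [hCV]; linarith)
    rw [Real.exp_neg, mul_inv_le_iff₀ (Real.exp_pos _)]
    exact h6.trans (mul_le_mul_of_nonneg_right hΛCV (Real.exp_pos _).le)
  -- the mass of the exceptional set
  set kJ : ℕ → ℝ := fun j => kj k₀ σ V j with hkJ
  set bJ : ℕ → ℝ := fun j => ∫ t in Set.Ioi (0:ℝ) ∩ (E ∩ {t | gd Rs J I t}),
    om κ (κ / T) t * AD n Rs J I (kJ j) (kJ j * V) t with hbJ
  have AD0 : ∀ a u t, 0 ≤ AD n Rs J I a u t := fun a u t => by unfold AD; positivity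
  have mgd : MeasurableSet {t | gd Rs J I t} := Pool.Agent.TH806.LM.gd_meas hz
  have hbJ0 : ∀ j, 0 ≤ bJ j := fun j =>
    setIntegral_nonneg (measurableSet_Ioi.inter (mE.inter mgd)) fun t ht =>
      mul_nonneg (om_nn κ hδ (le_of_lt ht.1)) (AD0 _ _ _)
  have hBS := hBES n Rs J I hI hn1 hR1 κ T hδ E mE k₀ η σ m hσ hV0 hη.le hη1 hm1 (by linarith)
  have hkp : |k₀ + η / Real.sqrt V| ≤ n := (abs_add_le _ _).trans (by rw [abs_of_nonneg hηV0]; linarith)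
  have hkm : |k₀ - η / Real.sqrt V| ≤ n := (abs_sub _ _).trans (by rw [abs_of_nonneg hηV0]; linarith)
  have hlen5 : n * ((Rs:ℝ) + 1) * Real.log (Real.exp (cc * L)) ≤ η5' * L := by rw [hlen]; gcongr
  have b1 := h5T κ hκ c₀ _ J I hc5 hlen5 _ hkp
  have b2 := h5T κ hκ c₀ _ J I hc5 hlen5 _ hkm
  set Mδ : ℝ := (M:ℝ) ^ (-δ5) with hMδ
  have hMδ0 : 0 < Mδ := by positivity
  have hcan : ∀ k : ℝ, Real.exp (-(k ^ 2 * V)) * (C5 * Mδ * Real.exp (k ^ 2 * V)) = C5 * Mδ := by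
    intro k
    have : Real.exp (-(k ^ 2 * V)) * Real.exp (k ^ 2 * V) = 1 := by rw [← Real.exp_add]; simp
    linear_combination (C5 * Mδ) * this
  have hS : ∑ j ∈ range m, Real.exp (-(kJ j ^ 2 * V)) * bJ j ≤ 2 * C5 * C6 * Mδ := by
    refine hBS.trans ?_
    calc C6 * (Real.exp (-((k₀ + η / Real.sqrt V) ^ 2 * V)) *
          (∫ t in Set.Ioi (0:ℝ) ∩ E, om κ (κ / T) t * ‖AZ n Rs J (k₀ + η / Real.sqrt V) (zz I t)‖ ^ 2) +
          Real.exp (-((k₀ - η / Real.sqrt V) ^ 2 * V)) *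
          (∫ t in Set.Ioi (0:ℝ) ∩ E, om κ (κ / T) t * ‖AZ n Rs J (k₀ - η / Real.sqrt V) (zz I t)‖ ^ 2)) ≤
        C6 * (Real.exp (-((k₀ + η / Real.sqrt V) ^ 2 * V)) *
          (C5 * Mδ * Real.exp ((k₀ + η / Real.sqrt V) ^ 2 * V)) +
          Real.exp (-((k₀ - η / Real.sqrt V) ^ 2 * V)) *
          (C5 * Mδ * Real.exp ((k₀ - η / Real.sqrt V) ^ 2 * V))) := by gcongr
      _ = 2 * C5 * C6 * Mδ := by rw [hcan, hcan]; ring
  set q : ℝ := (1 + V) ^ (-(1 / 2) : ℝ) with hq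
  have hq0 : 0 < q := by positivity
  have hqV : 1 / 2 ≤ Real.sqrt V * q := q_num hV1
  have hcount := countj (m := m) (b := bJ) (w := fun j => Real.exp (-(kJ j ^ 2 * V))) (τ := τ)
    (S := 2 * C5 * C6 * Mδ) (q := q) hbJ0 (fun j => Real.exp_pos _) hτ0 hq0 hS
    (cnt_num hℓ0 hη hτ₀0 hMδ0.le hττ (by rw [hMδ, ← Real.rpow_add hMr]; simp) hM4 hq0 hqV hm2)
  obtain ⟨G, hGm, hGc, hGb⟩ := hcount
  refine ⟨G, hGm, hGc, fun j hj => ?_⟩
  have hjm : j < m := mem_range.mp (hGm hj)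
  have hbj := hGb j hj
  set k := kJ j with hk
  have hkk : kj k₀ σ V j = k := rfl
  rw [hkk]
  have hk1 : |k| + 1 ≤ n := k_num hσ hk₀ hBn hV1 hη1 hm1 hjm
  have hkn : |k| ≤ n := by linarith
  have hkn' : |k - 1| ≤ n := (abs_sub _ _).trans (by simpa using hk1)
  have low := h6T κ hκ _ J I hc6 hpM (by rw [hlen]; gcongr) k hk1
  have u1 := h1T κ hκ _ J I hc1 (by rw [hlen]; gcongr) k (k * V) hkn
  have u2 := h2T κ hκ _ J I hc2 (by rw [hlen]; gcongr) k (k * V) hkn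
  have u3 := h3T κ hκ _ J I hc3 (by rw [hlen]; gcongr) k (k * V) hkn
  have u4 := h4T κ hκ _ J I hc4 (by rw [hlen]; gcongr) (k - 1) (k * V) hkn'
  set W := WW (k ^ 2) V with hW
  have hW0 : 0 < W := by unfold W WW; positivity
  have hWq : W = q * Real.exp (k ^ 2 * V) := rfl
  have hWW : WW (2 * (k - 1) + (k - 1) ^ 2) V = W * Real.exp (-V) := by
    rw [hW]; unfold WW
    rw [mul_assoc, ← Real.exp_add]; congr 2; ring
  have u4' : ∫ t in Set.Ioi (0:ℝ), wz κ T t * AD n Rs J I (k - 1) (k * V) t ≤ C4 * (Λ * W) := by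
    refine u4.trans ?_
    rw [hWW]
    calc C4 * L * (W * Real.exp (-V)) = C4 * ((L * Real.exp (-V)) * W) := by ring
      _ ≤ C4 * (Λ * W) := by gcongr
  have u3' : ∑ i ∈ range J, ∫ t in Set.Ioi (0:ℝ), om κ (κ / T) t *
        ((‖zz I t i‖ / RR Rs i) ^ (2 * RR Rs i) * AD n Rs J I k (k * V) t) ≤
      2 * (C3 * Real.exp (-(Rs:ℝ))) * W := by
    refine (sum_le_sum fun i hi => u3 i (mem_range.mp hi)).trans ?_
    rw [← sum_mul, ← mul_sum]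
    have h6 := sum_exp_le J Rs (RR_ge Rs)
    calc C3 * (∑ i ∈ range J, Real.exp (-(RR Rs i : ℝ))) * W ≤ C3 * (2 * Real.exp (-(Rs:ℝ))) * W := by gcongr
      _ = _ := by ring
  have hbW : bJ j ≤ τ * W := by
    refine hbj.trans (le_of_eq ?_)
    rw [hWq, Real.exp_neg, div_inv_eq_mul]
  have hfin := jpoint hKEY hI hn1 hR1 hδ mE (hf := fun t => h (tP M t)) hhc (fun t => hh1 _) hk1 hlam0 hB'0 hc'0
    hM'0 hc₁ hL₀0 hC1 hC4 hΛ0 hW0 hlam hM' hc' hτ hκ₀ hLV hreL hcB hcE low u1 u2 u3' u4' hbW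
  exact jnum hc₁ hL₀0 hM'0 hB'0 hq0 hkn hWq hfin

end

end Pool.Agent.Q286.MC
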