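import Pool.Agent.Q286.MC.Fin

/-!
Project MC: moments over the classes in short intervals.
-/

set_option autoImplicit false

namespace Pool.Agent.Q286.MC

open Finset Filter Topology MeasureTheory Complex MonoidAlgebra
open Pool.Agent.W184.NZ
open Pool.Agent.TH806 Pool.Agent.TH806.LK
open Pool.Agent.H306R2.SM (om cl Yf)
open Pool.Agent.H262R4.TM (Rng Ck)
open Pool.Agent.Q286.UZ Pool.Agent.Q286.SB ZU TH803TW

noncomputable section

/-- the moments over the classes -/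
def P_MO : Prop := ∀ (K : Set ℂ) (f : ℂ → ℂ) (ε : ℝ), IsCompact K → (∀ z ∈ K, 1 / 2 < z.re ∧ z.re < 1) →
  Pool.Agent.Y834.UT.Tgt K f → 0 < ε → ∀ B : ℝ, 0 ≤ B → ∃ c : ℝ, 0 < c ∧ ∀ α : ℝ, 0 ≤ α → α < 1 →
  ∀ᶠ T : ℝ in atTop, ∀ H : ℝ, T / Real.log T ^ α ≤ H → H ≤ T → ∀ k : ℝ, |k| ≤ B →
    ENNReal.ofReal (c * H * Real.exp (k ^ 2 * Real.log (Real.log T))) ≤
      ∫⁻ t in Pool.Agent.Y834.UT.SS ε K f ∩ Set.Icc T (T + H), ENNReal.ofReal (Xz t ^ (2 * k))

/-- the test function -/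
def tf (φ : ℝ → ℝ) (l Q k t : ℝ) : ℝ :=
  φ t * (bmp (Real.exp (-Q - 1)) (Real.exp (-Q)) (Real.exp Q) (Real.exp (Q + 1)) (Xz t) *
    min 1 ((max (Xz t) (Real.exp (-Q - 1))) ^ (2 * k) * Real.exp (-(2 * k ^ 2 * (l + 1)))))

lemma tf_cont {φ : ℝ → ℝ} (hφ : Continuous φ) (l Q k : ℝ) : Continuous (tf φ l Q k) := by
  unfold tf
  refine hφ.mul (((bmp_cont _ _ _ _).comp Xz_cont).mul (continuous_const.min (Continuous.mul ?_ continuous_const)))
  refine (Xz_cont.max continuous_const).rpow_const fun t => Or.inl ?_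
  have : 0 < Real.exp (-Q - 1) := Real.exp_pos _
  exact (lt_of_lt_of_le this (le_max_right _ _)).ne'

lemma tf_bd {φ : ℝ → ℝ} (h : ∀ t, 0 ≤ φ t ∧ φ t ≤ 1) (l Q k t : ℝ) : 0 ≤ tf φ l Q k t ∧ tf φ l Q k t ≤ 1 := by
  unfold tf
  have h1 := bmp_nonneg (Real.exp (-Q - 1)) (Real.exp (-Q)) (Real.exp Q) (Real.exp (Q + 1)) (Xz t)
  have h2 := bmp_le_one (Real.exp (-Q - 1)) (Real.exp (-Q)) (Real.exp Q) (Real.exp (Q + 1)) (Xz t)
  have h3 : 0 ≤ min 1 ((max (Xz t) (Real.exp (-Q - 1))) ^ (2 * k) * Real.exp (-(2 * k ^ 2 * (l + 1)))) := by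
    refine le_min zero_le_one ?_
    have : 0 < max (Xz t) (Real.exp (-Q - 1)) := lt_of_lt_of_le (Real.exp_pos _) (le_max_right _ _)
    positivity
  have h4 := min_le_left 1 ((max (Xz t) (Real.exp (-Q - 1))) ^ (2 * k) * Real.exp (-(2 * k ^ 2 * (l + 1))))
  obtain ⟨h5, h6⟩ := h t
  exact ⟨mul_nonneg h5 (mul_nonneg h1 h3), mul_le_one₀ h6 (mul_nonneg h1 h3) (mul_le_one₀ h2 h3 h4)⟩

/-- upper bound for the test function -/
lemma tf_up {φ : ℝ → ℝ} (h : ∀ t, 0 ≤ φ t ∧ φ t ≤ 1) (l Q k t : ℝ) :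
    tf φ l Q k t ≤ Xz t ^ (2 * k) * Real.exp (-(2 * k ^ 2 * (l + 1))) := by
  obtain ⟨h5, h6⟩ := h t
  by_cases hX : Real.exp (-Q - 1) ≤ Xz t
  · unfold tf
    have h1 := bmp_nonneg (Real.exp (-Q - 1)) (Real.exp (-Q)) (Real.exp Q) (Real.exp (Q + 1)) (Xz t)
    have h2 := bmp_le_one (Real.exp (-Q - 1)) (Real.exp (-Q)) (Real.exp Q) (Real.exp (Q + 1)) (Xz t)
    rw [max_eq_left hX]
    set y := Xz t ^ (2 * k) * Real.exp (-(2 * k ^ 2 * (l + 1))) with hy
    have hX0 := Xz_nonneg t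
    have hy0 : 0 ≤ y := by positivity
    have h3 : 0 ≤ min 1 y := le_min zero_le_one hy0
    calc φ t * (bmp (Real.exp (-Q - 1)) (Real.exp (-Q)) (Real.exp Q) (Real.exp (Q + 1)) (Xz t) * min 1 y) ≤
          1 * (1 * min 1 y) := by gcongr
      _ = min 1 y := by ring
      _ ≤ y := min_le_right _ _
  · have e : bmp (Real.exp (-Q - 1)) (Real.exp (-Q)) (Real.exp Q) (Real.exp (Q + 1)) (Xz t) = 0 := by
      refine bmp_zero (Real.exp_lt_exp.mpr (by linarith)) (Real.exp_lt_exp.mpr (by linarith)) fun h => hX h.1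
    unfold tf
    rw [e, zero_mul, mul_zero]
    have hX0 := Xz_nonneg t
    positivity

theorem t_MO (hW : P_CW) : P_MO := by
  intro K f ε hK hKs hT hε B hB
  obtain ⟨c, hc, hW⟩ := hW K f (ε / 2) hK hKs hT (by positivity) B 1 hB one_pos
  obtain ⟨φ, hφ, hφ1, hφ2, hφ3⟩ := cutoff hK hKs f hε
  set c₁ : ℝ := c * Real.exp (-(3 * B ^ 2)) with hc₁
  have hc₁0 : 0 < c₁ := by positivity
  refine ⟨c₁ / 2, by positivity, fun α hα0 hα1 => ?_⟩
  obtain ⟨κ, hS⟩ := Pool.Agent.TH959.LK_SH.t_SH α (B ^ 2 + 1) hα0 hα1 (by positivity)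
  filter_upwards [hS, ev_half hW, ll_var, w_small c₁ B hc₁0, eventually_gt_atTop (0:ℝ),
    Real.tendsto_log_atTop.eventually_ge_atTop 1,
    (Real.tendsto_log_atTop.comp Real.tendsto_log_atTop).eventually_ge_atTop 2] with
    T hS hW hvar hws hT0 hL1 hl H hH1 hH2 k hk
  simp only [Function.comp] at hl
  obtain ⟨hR, hS⟩ := hS
  set l := Real.log (Real.log T) with hld
  have hl0 : 0 < l := by linarith
  have hH0 : 0 < H := lt_of_lt_of_le (by positivity) hH1
  have hk2 : k ^ 2 ≤ B ^ 2 := by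
    rw [← sq_abs k]; exact pow_le_pow_left₀ (abs_nonneg _) hk 2
  set Q : ℝ := (B + 2) * (l + 2) with hQ
  set F := tf φ l Q k with hF
  have hFc : Continuous F := tf_cont hφ l Q k
  have hFb : ∀ t, 0 ≤ F t ∧ F t ≤ 1 := fun t => tf_bd hφ1 l Q k t
  set w : ℝ := c₁ * Real.exp (-(k ^ 2 * l)) with hw
  have hwlow : 1 / Real.log T ^ (B ^ 2 + 1) ≤ w := hws (k ^ 2) (sq_nonneg _) hk2
  have hwin : ∀ x ∈ Set.Icc T (T + H), w ≤ ∫ t in Set.Ioi (0:ℝ), om (κ T) ((κ T : ℝ) / x) t * F t := by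
    intro x hx
    have hx2 : x ≤ 2 * T := hx.2.trans (by linarith)
    have hx0 : 0 < x := lt_of_lt_of_le hT0 hx.1
    have hva := abs_le.mp (hvar x ⟨by linarith [hx.1], by linarith⟩)
    set lx := Real.log (Real.log x) with hlx
    have hin : 1 / (1 + l) ≤ 1 := by
      rw [div_le_one (by linarith)]; linarith
    have hlx1 : l - 1 ≤ lx := by linarith [hva.1]
    have hlx2 : lx ≤ l + 1 := by linarith [hva.2]
    have hlx0 : 0 < lx := by linarith
    have h1 := hW x (by linarith [hx.1]) (κ T) (hR x ⟨hx.1, hx2⟩) k hk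
    rw [← hlx] at h1
    have hκ := (hR x ⟨hx.1, hx2⟩).1
    have hlogx : 0 < Real.log x := lt_of_lt_of_le (by linarith) (Real.log_le_log hT0 hx.1)
    have hκ0 : (0:ℝ) < κ T := by
      have : 0 < Real.log x ^ 2 := by positivity
      linarith
    have hδ : 0 < (κ T : ℝ) / x := by positivity
    set S : Set ℝ := Pool.Agent.Y834.UT.SS (ε / 2) K f ∩ Rk lx k 1 with hSd
    have mS : MeasurableSet S :=
      (SS_open hK (fun z hz => (hKs z hz).2) f (ε / 2)).measurableSet.inter (Rk_meas _ _ _)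
    have iF : IntegrableOn (fun t => om (κ T) ((κ T : ℝ) / x) t * F t) (Set.Ioi 0) := by
      refine (om_int0 _ hδ).mul_bdd (c := 1) hFc.aestronglyMeasurable (Eventually.of_forall fun t => ?_)
      rw [Real.norm_of_nonneg (hFb t).1]; exact (hFb t).2
    have h2 : Real.exp (-(2 * k ^ 2 * (l + 1))) * ∫ t in Set.Ioi (0:ℝ) ∩ S,
        om (κ T) ((κ T : ℝ) / x) t * Xz t ^ (2 * k) ≤
        ∫ t in Set.Ioi (0:ℝ) ∩ S, om (κ T) ((κ T : ℝ) / x) t * F t := by
      rw [← integral_const_mul]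
      refine setIntegral_mono_on ((Xz_pow_int hδ mS fun t ht => ht.2.1).const_mul _)
        (iF.mono_set Set.inter_subset_left) (measurableSet_Ioi.inter mS) fun t ht => ?_
      obtain ⟨ht0, ht1, ht2, ht3, ht4⟩ := ht
      have hsq : Real.sqrt lx ≤ lx + 1 := by
        rw [Real.sqrt_le_left (by linarith)]; nlinarith
      have hkl : |k * lx| ≤ B * (l + 1) := by
        rw [abs_mul, abs_of_pos hlx0]
        exact mul_le_mul hk hlx2 hlx0.le hB
      obtain ⟨q1, q2⟩ := abs_le.mp hkl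
      have hBl : 0 ≤ B * l := mul_nonneg hB hl0.le
      have g1 : Real.exp (-Q) ≤ Xz t := by
        refine le_trans (Real.exp_le_exp.mpr ?_) ht3
        rw [hQ]; nlinarith
      have g2 : Xz t ≤ Real.exp Q := by
        refine ht4.trans (Real.exp_le_exp.mpr ?_)
        rw [hQ]; nlinarith
      have e1 : bmp (Real.exp (-Q - 1)) (Real.exp (-Q)) (Real.exp Q) (Real.exp (Q + 1)) (Xz t) = 1 :=
        bmp_one (Real.exp_lt_exp.mpr (by linarith)) (Real.exp_lt_exp.mpr (by linarith)) g1 g2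
      have g3 : Real.exp (-Q - 1) ≤ Xz t := (Real.exp_le_exp.mpr (by linarith)).trans g1
      have e2 : F t = Xz t ^ (2 * k) * Real.exp (-(2 * k ^ 2 * (l + 1))) := by
        rw [hF]
        unfold tf
        rw [hφ2 t ht1, e1, max_eq_left g3, one_mul, one_mul]
        refine min_eq_right ?_
        calc Xz t ^ (2 * k) * Real.exp (-(2 * k ^ 2 * (l + 1))) ≤
              Real.exp (2 * k ^ 2 * lx) * Real.exp (-(2 * k ^ 2 * (l + 1))) := by gcongr
          _ = Real.exp (2 * k ^ 2 * (lx - (l + 1))) := by rw [← Real.exp_add]; congr 1; ring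
          _ ≤ 1 := Real.exp_le_one_iff.mpr
              (mul_nonpos_of_nonneg_of_nonpos (by positivity) (by linarith))
      rw [e2]
      exact le_of_eq (by ring)
    have h3 : ∫ t in Set.Ioi (0:ℝ) ∩ S, om (κ T) ((κ T : ℝ) / x) t * F t ≤
        ∫ t in Set.Ioi (0:ℝ), om (κ T) ((κ T : ℝ) / x) t * F t := by
      refine setIntegral_mono_set iF ?_ Set.inter_subset_left.eventuallyLE
      exact (ae_restrict_iff' measurableSet_Ioi).mpr (Eventually.of_forall fun t ht =>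
        mul_nonneg (om_nn _ hδ (le_of_lt ht)) (hFb t).1)
    refine le_trans ?_ (h2.trans h3)
    have h4 := mul_le_mul_of_nonneg_left h1 (Real.exp_pos (-(2 * k ^ 2 * (l + 1)))).le
    refine le_trans ?_ h4
    have e3 : Real.exp (-(2 * k ^ 2 * (l + 1))) * (c * Real.exp (k ^ 2 * lx)) =
        c * Real.exp (k ^ 2 * lx - 2 * k ^ 2 * (l + 1)) := by
      rw [sub_eq_add_neg, Real.exp_add]; ring
    rw [e3, hw, hc₁, mul_assoc, ← Real.exp_add]
    refine mul_le_mul_of_nonneg_left (Real.exp_le_exp.mpr ?_) hc.le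
    have e4 : k ^ 2 * (l - 1) ≤ k ^ 2 * lx := mul_le_mul_of_nonneg_left hlx1 (sq_nonneg _)
    nlinarith
  have h1 := hS H hH1 hH2 F hFc hFb w hwlow hwin
  set E2 := Real.exp (2 * k ^ 2 * (l + 1)) with hE2
  have hE20 : 0 < E2 := Real.exp_pos _
  have h2 : ENNReal.ofReal (E2 * ∫ t in T..(T + H), F t) ≤
      ∫⁻ t in Pool.Agent.Y834.UT.SS ε K f ∩ Set.Icc T (T + H), ENNReal.ofReal (Xz t ^ (2 * k)) := by
    have mI : MeasurableSet (Pool.Agent.Y834.UT.SS ε K f) :=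
      (SS_open hK (fun z hz => (hKs z hz).2) f ε).measurableSet
    rw [← intervalIntegral.integral_const_mul, intervalIntegral.integral_of_le (by linarith),
      ← integral_Icc_eq_integral_Ioc, ofReal_integral_eq_lintegral_ofReal
        ((hFc.const_mul E2).integrableOn_Icc) (Eventually.of_forall fun t => mul_nonneg hE20.le (hFb t).1)]
    rw [← lintegral_indicator measurableSet_Icc, ← lintegral_indicator (mI.inter measurableSet_Icc)]
    refine lintegral_mono fun t => ?_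
    by_cases ht : t ∈ Set.Icc T (T + H)
    · rw [Set.indicator_of_mem ht]
      by_cases hts : t ∈ Pool.Agent.Y834.UT.SS ε K f
      · rw [Set.indicator_of_mem (show t ∈ Pool.Agent.Y834.UT.SS ε K f ∩ Set.Icc T (T + H) from ⟨hts, ht⟩)]
        refine ENNReal.ofReal_le_ofReal ?_
        have h3 := tf_up hφ1 l Q k t
        have h4 := mul_le_mul_of_nonneg_left h3 hE20.le
        refine h4.trans (le_of_eq ?_)
        have e1 : E2 * Real.exp (-(2 * k ^ 2 * (l + 1))) = 1 := by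
          rw [hE2, ← Real.exp_add]; simp
        linear_combination (Xz t ^ (2 * k)) * e1
      · have e1 : F t = 0 := by
          rw [hF]; unfold tf; rw [hφ3 t hts, zero_mul]
        rw [e1, mul_zero, ENNReal.ofReal_zero]
        exact zero_le
    · rw [Set.indicator_of_notMem ht]
      exact zero_le
  refine le_trans (ENNReal.ofReal_le_ofReal ?_) h2
  have h3 := mul_le_mul_of_nonneg_left h1 hE20.le
  refine le_trans ?_ h3
  have e5 : Real.exp (k ^ 2 * l) ≤ E2 * Real.exp (-(k ^ 2 * l)) := by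
    rw [hE2, ← Real.exp_add]
    apply Real.exp_le_exp.mpr
    nlinarith [sq_nonneg k]
  calc c₁ / 2 * H * Real.exp (k ^ 2 * l) ≤ c₁ / 2 * H * (E2 * Real.exp (-(k ^ 2 * l))) := by gcongr
    _ = E2 * (1 / 2 * (H * w)) := by rw [hw]; ring

end

end Pool.Agent.Q286.MC
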